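import Pool.Agent.V8H24.ZS.Ms

/-!
# The mean square of a sum with the frequencies `log n` and `g log n`, short windows

All the `n` are at most a small multiple of `X ^ 2`, so that the large sieve for one block of
primes can be applied for every fixed `t`.
-/

set_option autoImplicit false
set_option maxHeartbeats 4000000

open Complex Filter Topology MeasureTheory Set

namespace Pool.Agent.V8H24.RT

open H385 (c0 primFamM bt wt Rw WM IX primSetM primFamM_eq bt_norm wt_nonneg wt_le_one bt_sq_int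
  wt_sq_int bt_cont)
open Pool.Agent.N880.QF (PP mem_PP yy yy_sq yy_abs card_PP sq_add_le)
open Pool.Agent.N880.HD (main_sum_integrable)
open Pool.Agent.N880.HE (S_primM)
open Pool.Agent.V8H24.ZS (Pq SQ rest_dil)
open Pool.Agent.N7.MainC (inner inner_summable inner_nonneg)
open ArithmeticFunction (vonMangoldt)

/-- the mixed term of the diagonal -/
lemma mix_exp (g : ℝ) (u l : ℝ) :
    Real.exp (-(u - l) ^ 2 / 4) * Real.exp (-(u - g * l) ^ 2 / 4) ≤
      Real.exp (-((g - 1) * l) ^ 2 / 8) := by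
  rw [← Real.exp_add]
  apply Real.exp_le_exp.2
  nlinarith [sq_nonneg ((u - l) + (u - g * l))]

lemma int_add3 {f1 f2 f3 : ℝ → ℝ} (h1 : Integrable f1) (h2 : Integrable f2)
    (h3 : Integrable f3) : ∫ t : ℝ, (f1 t + f2 t + f3 t) =
      (∫ t : ℝ, f1 t) + (∫ t : ℝ, f2 t) + ∫ t : ℝ, f3 t := by
  have e1 : ∫ t : ℝ, (f1 t + f2 t + f3 t) = (∫ t : ℝ, (f1 t + f2 t)) + ∫ t : ℝ, f3 t :=
    integral_add (f := fun t => f1 t + f2 t) (h1.add h2) h3
  rw [e1, integral_add h1 h2]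

/-- the constant of the mixed terms -/
lemma mix_summable {g : ℝ} (hg : 1 < g) : Summable (fun n : ℕ => vonMangoldt n ^ 2 / n *
    Real.exp (-((g - 1) * Real.log n) ^ 2 / 8)) := by
  have hg0 : 0 < (g - 1) / 3 := by linarith
  refine Summable.of_nonneg_of_le (fun n => by positivity) (fun n => ?_) (inner_summable hg0 0)
  refine mul_le_mul_of_nonneg_left (Real.exp_le_exp.2 ?_) (by positivity)
  nlinarith [sq_nonneg ((g - 1) * Real.log n)]

theorem two_core (hprim : S_primM) :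
    ∀ Q0 : ℕ, Squarefree Q0 → ∀ g : ℝ, 1 < g → ∀ s : ℝ, 0 < s → s ≤ 1 / 2 →
    ∃ K C X0 : ℝ, 1 ≤ K ∧ 0 < C ∧ 3 ≤ X0 ∧
    ∀ (X Y : ℕ) (T u : ℝ) (c1 c2 : ℕ → ℂ), (∀ n, ‖c1 n‖ ≤ 1) → (∀ n, ‖c2 n‖ ≤ 1) →
      X0 ≤ X → K * X ≤ Y → (Real.log X) ^ 2 ≤ T → T ≤ X → 0 ≤ u →
      u ≤ (1 - s) * (2 * Real.log X) →
      ∫ t : ℝ, primFamM Q0 X Y (fun q χ => ‖Pq 1 (fun n => χ (n : ZMod q) * c1 n *
          (vonMangoldt n : ℂ)) T u t + Pq g (fun n => χ (n : ZMod q) * c2 n *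
          (vonMangoldt n : ℂ)) T u t‖ ^ 2) ≤
        (1 + s) * WM Q0 X Y * (T / (2 * Real.pi)) * (inner 1 u + inner g u) +
          C * WM Q0 X Y * T := by
  intro Q0 hQ0 g hg1 s hs hs1
  have hg0 : 0 < g := by linarith
  have hg1' : 1 ≤ g := hg1.le
  obtain ⟨δ, hδ⟩ : ∃ δ, δ = s / 4 := ⟨_, rfl⟩
  have hδ0 : 0 < δ := by rw [hδ]; positivity
  have hδ1 : δ ≤ 1 := by rw [hδ]; linarith
  obtain ⟨B, K, e0, hB1, hK1, he0, hp⟩ := hprim Q0 hQ0 δ hδ0 hδ1
  obtain ⟨CR, hCR, hr⟩ := rest_dil B (s / 4) (by positivity)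
  obtain ⟨C3, hC3, hwt⟩ := wt_sq_int
  obtain ⟨C5, hC5, hcr⟩ := H385.lam_sq_crude
  obtain ⟨Cb, hCb, hbt⟩ := bt_sq_int
  obtain ⟨Dm, hDm⟩ : ∃ Dm, Dm = ∑' n : ℕ, vonMangoldt n ^ 2 / n *
    Real.exp (-((g - 1) * Real.log n) ^ 2 / 8) := ⟨_, rfl⟩
  have hDm0 : 0 ≤ Dm := hDm ▸ tsum_nonneg fun n => by positivity
  obtain ⟨E, hE⟩ : ∃ E, E = (1 + g) * CR := ⟨_, rfl⟩
  have hE0 : 0 < E := by rw [hE]; positivity
  obtain ⟨A1, hA1⟩ : ∃ A1, A1 = 3 * Cb * (C5 + g ^ 2 * C5) + 2 * g * Dm * (1 + C3) := ⟨_, rfl⟩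
  have hA10 : 0 ≤ A1 := by rw [hA1]; positivity
  refine ⟨K, (1 + s) * A1 + (1 + 1 / δ) * E ^ 2 * (1 + C3), max 3 (Real.exp (2 / s * |Real.log e0|)),
    hK1, by positivity, le_max_left _ _, ?_⟩
  intro X Y T u c1 c2 hc1 hc2 hX hKX hTL hTX hu0 hu
  have hX3 : (3 : ℝ) ≤ X := (le_max_left _ _).trans hX
  have hXe : Real.exp (2 / s * |Real.log e0|) ≤ X := (le_max_right _ _).trans hX
  have hX0 : (0 : ℝ) < X := by linarith
  have hXn : 1 ≤ X := by exact_mod_cast hX0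
  obtain ⟨L, hL⟩ : ∃ L, L = Real.log X := ⟨_, rfl⟩
  rw [← hL] at hTL hu
  have hL1 : 1 ≤ L := by
    rw [hL, Real.le_log_iff_exp_le hX0]
    have := Real.exp_one_lt_d9
    linarith
  have hL0 : 0 < L := by linarith
  have hT1 : 1 ≤ T := (one_le_pow₀ hL1).trans hTL
  have hT0 : 0 < T := by linarith
  have hTC : T + C3 ≤ (1 + C3) * T := by
    have h1 := mul_le_mul_of_nonneg_left hT1 hC3.le
    rw [mul_one] at h1
    have h2 : (1 + C3) * T = T + C3 * T := by ring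
    rw [h2]
    exact add_le_add le_rfl h1
  have hLe : 2 / s * |Real.log e0| ≤ L := by
    rw [hL, Real.le_log_iff_exp_le hX0]; exact hXe
  have hsL : 2 * |Real.log e0| ≤ s * L := by
    rw [div_mul_eq_mul_div, div_le_iff₀ hs] at hLe
    linarith
  have hL2L : L ≤ 2 * L := by linarith
  have hu2L : u ≤ 2 * L := by
    have : (1 - s) * (2 * L) ≤ 1 * (2 * L) := mul_le_mul_of_nonneg_right (by linarith) (by linarith)
    linarith
  obtain ⟨v, hv⟩ : ∃ v, v = u / g := ⟨_, rfl⟩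
  have hv0 : 0 ≤ v := by rw [hv]; positivity
  have hvu : v ≤ u := by rw [hv]; exact div_le_self hu0 hg1'
  -- the primes
  obtain ⟨P1, hP1⟩ : ∃ P1, P1 = PP B (s / 4) (2 * L) u := ⟨_, rfl⟩
  obtain ⟨P2, hP2⟩ : ∃ P2, P2 = PP B (s / 4) (2 * L) v := ⟨_, rfl⟩
  obtain ⟨N, hN⟩ : ∃ N : ℕ, N = ⌊e0 * (X : ℝ) ^ 2⌋₊ := ⟨_, rfl⟩
  have hNle : (N : ℝ) ≤ e0 * (X : ℝ) ^ 2 := by
    rw [hN]; exact Nat.floor_le (by positivity)
  have hlen : ∀ w p : ℝ, w ≤ u → 0 < p → |Real.log p - w| ≤ s / 4 * (2 * L) →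
      p ≤ e0 * (X : ℝ) ^ 2 := by
    intro w p hw hp0 h
    have h1 := (abs_le.1 h).2
    have h2 : Real.log p ≤ Real.log e0 + 2 * L := by
      have h3 : -|Real.log e0| ≤ Real.log e0 := neg_abs_le _
      have h4 : 0 ≤ |Real.log e0| := abs_nonneg _
      have h5 : (1 - s) * (2 * L) = 2 * L - 2 * (s * L) := by ring
      have h6 : s / 4 * (2 * L) = (s * L) / 2 := by ring
      rw [h5] at hu
      rw [h6] at h1
      linarith
    have h7 : Real.log p ≤ Real.log (e0 * (X : ℝ) ^ 2) := by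
      rw [Real.log_mul he0.ne' (by positivity), Real.log_pow, ← hL]
      push_cast
      linarith
    exact (Real.log_le_log_iff hp0 (by positivity)).1 h7
  have hPm1 : ∀ p ∈ P1, p.Prime ∧ B < p ∧ p ≤ N := fun p hp => by
    rw [hP1] at hp
    obtain ⟨h1, h2, h3⟩ := mem_PP hp
    refine ⟨h1, h2, ?_⟩
    rw [hN]
    exact Nat.le_floor (hlen u p le_rfl (by exact_mod_cast h1.pos) h3)
  have hPm2 : ∀ p ∈ P2, p.Prime ∧ B < p ∧ p ≤ N := fun p hp => by
    rw [hP2] at hp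
    obtain ⟨h1, h2, h3⟩ := mem_PP hp
    refine ⟨h1, h2, ?_⟩
    rw [hN]
    exact Nat.le_floor (hlen v p hvu (by exact_mod_cast h1.pos) h3)
  -- the coefficients
  obtain ⟨x1, hx1⟩ : ∃ x1 : ℕ → ℝ → ℂ, x1 = fun p t => if p ∈ P1 then
    (c1 p * ((yy p : ℝ) : ℂ)) * bt T u t (1 * Real.log p) else 0 := ⟨_, rfl⟩
  obtain ⟨x2, hx2⟩ : ∃ x2 : ℕ → ℝ → ℂ, x2 = fun p t => if p ∈ P2 then
    (c2 p * ((g * yy p : ℝ) : ℂ)) * bt T u t (g * Real.log p) else 0 := ⟨_, rfl⟩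
  have hW0 : 0 ≤ WM Q0 X Y := H385.primFamM_nonneg _ _ _ _ (fun _ _ => zero_le_one)
  have hWs : ∑ i ∈ primSetM Q0 X Y, (1 / (i.1 : ℝ) ^ 2) = WM Q0 X Y := by
    unfold WM; rw [primFamM_eq]; simp
  obtain ⟨W, hWd⟩ : ∃ W, W = WM Q0 X Y := ⟨_, rfl⟩
  -- the large sieve for fixed `t`
  have hls : ∀ t : ℝ, ∑ i ∈ primSetM Q0 X Y, 1 / (i.1 : ℝ) ^ 2 *
      ‖∑ n ∈ Finset.Icc 1 N, (x1 n t + x2 n t) * i.2 (n : ZMod i.1)‖ ^ 2 ≤
      (1 + δ) * W * ∑ n ∈ Finset.Icc 1 N, ‖x1 n t + x2 n t‖ ^ 2 := by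
    intro t
    have h1 := hp X Y 0 N (fun n => x1 n t + x2 n t) hXn hKX hNle (by
      intro n hn
      rw [hx1, hx2] at hn
      simp only at hn
      by_cases h1 : n ∈ P1
      · exact ⟨(hPm1 n h1).1, (hPm1 n h1).2.1⟩
      · by_cases h2 : n ∈ P2
        · exact ⟨(hPm2 n h2).1, (hPm2 n h2).2.1⟩
        · rw [if_neg h1, if_neg h2, add_zero] at hn
          exact absurd rfl hn) (by
      intro n hn
      have h0 : n = 0 := by omega
      rw [hx1, hx2]
      simp only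
      have h1 : n ∉ P1 := fun h => by
        have := (hPm1 n h).1.pos
        omega
      have h2 : n ∉ P2 := fun h => by
        have := (hPm2 n h).1.pos
        omega
      rw [if_neg h1, if_neg h2, add_zero])
    rw [zero_add, ← hWd] at h1
    rw [primFamM_eq] at h1
    exact h1
  -- the main sums
  obtain ⟨M, hM⟩ : ∃ M : IX → ℝ → ℂ, M = fun i t =>
    (∑ p ∈ P1, (i.2 (p : ZMod i.1) * (c1 p * ((yy p : ℝ) : ℂ))) * bt T u t (1 * Real.log p)) +
    ∑ p ∈ P2, (i.2 (p : ZMod i.1) * (c2 p * ((g * yy p : ℝ) : ℂ))) * bt T u t (g * Real.log p) :=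
    ⟨_, rfl⟩
  have hsub1 : P1 ⊆ Finset.Icc 1 N := fun p hp =>
    Finset.mem_Icc.2 ⟨(hPm1 p hp).1.pos, (hPm1 p hp).2.2⟩
  have hsub2 : P2 ⊆ Finset.Icc 1 N := fun p hp =>
    Finset.mem_Icc.2 ⟨(hPm2 p hp).1.pos, (hPm2 p hp).2.2⟩
  have hMx : ∀ (i : IX) (t : ℝ), M i t =
      ∑ n ∈ Finset.Icc 1 N, (x1 n t + x2 n t) * i.2 (n : ZMod i.1) := by
    intro i t
    simp only [add_mul]
    rw [Finset.sum_add_distrib, hM]
    simp only
    congr 1
    · rw [← Finset.sum_subset hsub1 (fun p _ hp => by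
        rw [hx1]; simp only; rw [if_neg hp, zero_mul])]
      refine Finset.sum_congr rfl fun p hp => ?_
      rw [hx1]; simp only; rw [if_pos hp]; ring
    · rw [← Finset.sum_subset hsub2 (fun p _ hp => by
        rw [hx2]; simp only; rw [if_neg hp, zero_mul])]
      refine Finset.sum_congr rfl fun p hp => ?_
      rw [hx2]; simp only; rw [if_pos hp]; ring
  -- the pointwise bound
  have hpt : ∀ t : ℝ, primFamM Q0 X Y (fun q χ => ‖Pq 1 (fun n => χ (n : ZMod q) * c1 n *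
        (vonMangoldt n : ℂ)) T u t + Pq g (fun n => χ (n : ZMod q) * c2 n *
          (vonMangoldt n : ℂ)) T u t‖ ^ 2) ≤
      (1 + δ) * ((1 + δ) * W * ∑ n ∈ Finset.Icc 1 N, ‖x1 n t + x2 n t‖ ^ 2) +
        (1 + 1 / δ) * (E ^ 2 * W) * wt T t ^ 2 := by
    intro t
    rw [primFamM_eq]
    have hwn := wt_nonneg T t hT0.le
    have hk : ∀ i ∈ primSetM Q0 X Y, 1 / (i.1 : ℝ) ^ 2 *
        ‖Pq 1 (fun n => i.2 (n : ZMod i.1) * c1 n * (vonMangoldt n : ℂ)) T u t +
          Pq g (fun n => i.2 (n : ZMod i.1) * c2 n * (vonMangoldt n : ℂ)) T u t‖ ^ 2 ≤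
        1 / (i.1 : ℝ) ^ 2 * ((1 + δ) * ‖M i t‖ ^ 2 +
          (1 + 1 / δ) * (E * wt T t) ^ 2) := by
      intro i hi
      refine mul_le_mul_of_nonneg_left ?_ (by positivity)
      have hval : ∀ (c : ℕ → ℂ), (∀ n, ‖c n‖ ≤ 1) → ∀ n : ℕ,
          ‖i.2 (n : ZMod i.1) * c n * (vonMangoldt n : ℂ)‖ ≤ vonMangoldt n := by
        intro c hc n
        have k2 : (0 : ℝ) ≤ vonMangoldt n := ArithmeticFunction.vonMangoldt_nonneg
        rw [norm_mul, norm_mul, Complex.norm_real, Real.norm_eq_abs, abs_of_nonneg k2]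
        have k1 : ‖i.2 (n : ZMod i.1)‖ * ‖c n‖ ≤ 1 * 1 :=
          mul_le_mul (DirichletCharacter.norm_le_one _ _) (hc n) (norm_nonneg _) zero_le_one
        calc _ ≤ (1 * 1) * vonMangoldt n := mul_le_mul_of_nonneg_right k1 k2
          _ = _ := by ring
      have r1 := hr 1 (2 * L) u T t _ le_rfl (by linarith) hu0 (by rw [div_one]; exact hu2L)
        hT0.le (hval c1 hc1)
      have r2 := hr g (2 * L) u T t _ hg1' (by linarith) hu0 (by rw [← hv]; linarith)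
        hT0.le (hval c2 hc2)
      rw [div_one, ← hP1] at r1
      rw [← hv, ← hP2] at r2
      have e1 : ∑ p ∈ P1, (i.2 (p : ZMod i.1) * c1 p * (vonMangoldt p : ℂ)) *
          (((1 / Real.sqrt p : ℝ) : ℂ) * bt T u t (1 * Real.log p)) =
          ∑ p ∈ P1, (i.2 (p : ZMod i.1) * (c1 p * ((yy p : ℝ) : ℂ))) *
            bt T u t (1 * Real.log p) := by
        refine Finset.sum_congr rfl fun p hp => ?_
        unfold yy
        push_cast
        ring
      have e2 : ∑ p ∈ P2, (i.2 (p : ZMod i.1) * c2 p * (vonMangoldt p : ℂ)) *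
          (((g / Real.sqrt p : ℝ) : ℂ) * bt T u t (g * Real.log p)) =
          ∑ p ∈ P2, (i.2 (p : ZMod i.1) * (c2 p * ((g * yy p : ℝ) : ℂ))) *
            bt T u t (g * Real.log p) := by
        refine Finset.sum_congr rfl fun p hp => ?_
        unfold yy
        push_cast
        ring
      rw [e1] at r1
      rw [e2] at r2
      have h1' : ‖(Pq 1 (fun n => i.2 (n : ZMod i.1) * c1 n * (vonMangoldt n : ℂ)) T u t +
          Pq g (fun n => i.2 (n : ZMod i.1) * c2 n * (vonMangoldt n : ℂ)) T u t) - M i t‖ ≤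
          E * wt T t := by
        have e3 : (Pq 1 (fun n => i.2 (n : ZMod i.1) * c1 n * (vonMangoldt n : ℂ)) T u t +
          Pq g (fun n => i.2 (n : ZMod i.1) * c2 n * (vonMangoldt n : ℂ)) T u t) - M i t =
          (Pq 1 (fun n => i.2 (n : ZMod i.1) * c1 n * (vonMangoldt n : ℂ)) T u t -
            ∑ p ∈ P1, (i.2 (p : ZMod i.1) * (c1 p * ((yy p : ℝ) : ℂ))) *
              bt T u t (1 * Real.log p)) +
          (Pq g (fun n => i.2 (n : ZMod i.1) * c2 n * (vonMangoldt n : ℂ)) T u t -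
            ∑ p ∈ P2, (i.2 (p : ZMod i.1) * (c2 p * ((g * yy p : ℝ) : ℂ))) *
              bt T u t (g * Real.log p)) := by
          rw [hM]; ring
        rw [e3]
        refine (norm_add_le _ _).trans ((add_le_add r1 r2).trans (le_of_eq ?_))
        rw [hE]; ring
      have h3 := norm_le_norm_add_norm_sub' (Pq 1 (fun n => i.2 (n : ZMod i.1) * c1 n *
        (vonMangoldt n : ℂ)) T u t + Pq g (fun n => i.2 (n : ZMod i.1) * c2 n *
          (vonMangoldt n : ℂ)) T u t) (M i t)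
      exact (pow_le_pow_left₀ (norm_nonneg _) (h3.trans (add_le_add le_rfl h1')) 2).trans
        (sq_add_le hδ0 _ _)
    refine (Finset.sum_le_sum hk).trans ?_
    have hl := hls t
    have e4 : ∑ i ∈ primSetM Q0 X Y, 1 / (i.1 : ℝ) ^ 2 * ((1 + δ) * ‖M i t‖ ^ 2 +
          (1 + 1 / δ) * (E * wt T t) ^ 2) =
        (1 + δ) * (∑ i ∈ primSetM Q0 X Y, 1 / (i.1 : ℝ) ^ 2 *
          ‖∑ n ∈ Finset.Icc 1 N, (x1 n t + x2 n t) * i.2 (n : ZMod i.1)‖ ^ 2) +
        (1 + 1 / δ) * (E ^ 2 * W) * wt T t ^ 2 := by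
      rw [hWd, ← hWs, Finset.mul_sum, Finset.mul_sum, Finset.mul_sum, Finset.sum_mul,
        ← Finset.sum_add_distrib]
      refine Finset.sum_congr rfl fun i _ => ?_
      rw [hMx i t]
      ring
    rw [e4]
    exact add_le_add (mul_le_mul_of_nonneg_left hl (by linarith)) le_rfl
  -- the diagonal
  have hκ1 : T ≤ Real.exp (L ^ 2) := by
    have h1 : (X : ℝ) = Real.exp L := by rw [hL, Real.exp_log hX0]
    refine hTX.trans ?_
    rw [h1]
    exact Real.exp_le_exp.2 (le_self_pow₀ hL1 two_ne_zero)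
  have hb1 : ∀ p : ℕ, Integrable (fun t => ‖bt T u t (1 * Real.log p)‖ ^ 2) ∧ _ := fun p =>
    hbt T L u (1 * Real.log p) hL1 hT1 hκ1
  have hb2 : ∀ p : ℕ, Integrable (fun t => ‖bt T u t (g * Real.log p)‖ ^ 2) ∧ _ := fun p =>
    hbt T L u (g * Real.log p) hL1 hT1 hκ1
  have hwi := hwt T hT0.le
  -- bound of one term
  have hterm : ∀ (n : ℕ) (t : ℝ), ‖x1 n t + x2 n t‖ ^ 2 ≤
      (if n ∈ P1 then yy n ^ 2 * ‖bt T u t (1 * Real.log n)‖ ^ 2 else 0) +
      (if n ∈ P2 then g ^ 2 * yy n ^ 2 * ‖bt T u t (g * Real.log n)‖ ^ 2 else 0) +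
      2 * g * (vonMangoldt n ^ 2 / n * Real.exp (-((g - 1) * Real.log n) ^ 2 / 8)) *
        wt T t ^ 2 := by
    intro n t
    have hwn := wt_nonneg T t hT0.le
    have k1 : ‖x1 n t‖ ≤ (if n ∈ P1 then |yy n| * ‖bt T u t (1 * Real.log n)‖ else 0) := by
      rw [hx1]; simp only
      split_ifs with h
      · rw [norm_mul, norm_mul, Complex.norm_real, Real.norm_eq_abs]
        have := hc1 n
        have h2 : ‖c1 n‖ * |yy n| ≤ 1 * |yy n| := mul_le_mul_of_nonneg_right this (abs_nonneg _)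
        rw [one_mul] at h2
        exact mul_le_mul_of_nonneg_right h2 (norm_nonneg _)
      · rw [norm_zero]
    have k2 : ‖x2 n t‖ ≤ (if n ∈ P2 then g * |yy n| * ‖bt T u t (g * Real.log n)‖ else 0) := by
      rw [hx2]; simp only
      split_ifs with h
      · rw [norm_mul, norm_mul, Complex.norm_real, Real.norm_eq_abs, abs_mul, abs_of_pos hg0]
        have := hc2 n
        have h2 : ‖c2 n‖ * (g * |yy n|) ≤ 1 * (g * |yy n|) :=
          mul_le_mul_of_nonneg_right this (by positivity)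
        rw [one_mul] at h2
        exact mul_le_mul_of_nonneg_right h2 (norm_nonneg _)
      · rw [norm_zero]
    obtain ⟨a, ha⟩ : ∃ a, a = (if n ∈ P1 then |yy n| * ‖bt T u t (1 * Real.log n)‖ else 0) :=
      ⟨_, rfl⟩
    obtain ⟨b, hb⟩ : ∃ b, b = (if n ∈ P2 then g * |yy n| * ‖bt T u t (g * Real.log n)‖ else 0) :=
      ⟨_, rfl⟩
    rw [← ha] at k1
    rw [← hb] at k2
    have ha0 : 0 ≤ a := (norm_nonneg _).trans k1
    have hb0 : 0 ≤ b := (norm_nonneg _).trans k2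
    have h1 : ‖x1 n t + x2 n t‖ ^ 2 ≤ (a + b) ^ 2 :=
      pow_le_pow_left₀ (norm_nonneg _) ((norm_add_le _ _).trans (add_le_add k1 k2)) 2
    have h2 : a ^ 2 = (if n ∈ P1 then yy n ^ 2 * ‖bt T u t (1 * Real.log n)‖ ^ 2 else 0) := by
      rw [ha]; split_ifs
      · rw [mul_pow, sq_abs]
      · ring
    have h3 : b ^ 2 = (if n ∈ P2 then g ^ 2 * yy n ^ 2 * ‖bt T u t (g * Real.log n)‖ ^ 2 else 0) := by
      rw [hb]; split_ifs
      · rw [mul_pow, mul_pow, sq_abs]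
      · ring
    have hs2 : 1 / Real.sqrt (2 * Real.pi) ≤ 1 := by
      rw [div_le_one (Real.sqrt_pos.2 (by positivity))]
      exact Real.one_le_sqrt.2 (by linarith [Real.pi_gt_three])
    have h4 : a ≤ |yy n| * (Real.exp (-(u - Real.log n) ^ 2 / 4) * wt T t) := by
      rw [ha]
      split_ifs
      · refine mul_le_mul_of_nonneg_left ?_ (abs_nonneg _)
        have := bt_norm T u t (1 * Real.log n) hT0.le
        rw [one_mul] at this ⊢
        refine this.trans ?_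
        exact mul_le_mul_of_nonneg_right (mul_le_of_le_one_left (Real.exp_pos _).le hs2) hwn
      · positivity
    have h5 : b ≤ g * |yy n| * (Real.exp (-(u - g * Real.log n) ^ 2 / 4) * wt T t) := by
      rw [hb]
      split_ifs
      · refine mul_le_mul_of_nonneg_left ?_ (by positivity)
        refine (bt_norm T u t (g * Real.log n) hT0.le).trans ?_
        exact mul_le_mul_of_nonneg_right (mul_le_of_le_one_left (Real.exp_pos _).le hs2) hwn
      · positivity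
    have h6 : 2 * (a * b) ≤ 2 * g * (vonMangoldt n ^ 2 / n *
        Real.exp (-((g - 1) * Real.log n) ^ 2 / 8)) * wt T t ^ 2 := by
      have h7 : a * b ≤ (|yy n| * (Real.exp (-(u - Real.log n) ^ 2 / 4) * wt T t)) *
          (g * |yy n| * (Real.exp (-(u - g * Real.log n) ^ 2 / 4) * wt T t)) :=
        mul_le_mul h4 h5 hb0 (by positivity)
      have h8 : (|yy n| * (Real.exp (-(u - Real.log n) ^ 2 / 4) * wt T t)) *
          (g * |yy n| * (Real.exp (-(u - g * Real.log n) ^ 2 / 4) * wt T t)) =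
          (g * yy n ^ 2 * wt T t ^ 2) * (Real.exp (-(u - Real.log n) ^ 2 / 4) *
            Real.exp (-(u - g * Real.log n) ^ 2 / 4)) := by
        rw [← sq_abs (yy n)]; ring
      have h9 : (g * yy n ^ 2 * wt T t ^ 2) * (Real.exp (-(u - Real.log n) ^ 2 / 4) *
            Real.exp (-(u - g * Real.log n) ^ 2 / 4)) ≤ (g * yy n ^ 2 * wt T t ^ 2) *
            Real.exp (-((g - 1) * Real.log n) ^ 2 / 8) :=
        mul_le_mul_of_nonneg_left (mix_exp g u _) (by positivity)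
      rw [yy_sq] at h8 h9
      rw [h8] at h7
      calc 2 * (a * b) ≤ 2 * ((g * (vonMangoldt n ^ 2 / n) * wt T t ^ 2) *
            Real.exp (-((g - 1) * Real.log n) ^ 2 / 8)) := by linarith
        _ = _ := by ring
    calc _ ≤ (a + b) ^ 2 := h1
      _ = a ^ 2 + b ^ 2 + 2 * (a * b) := by ring
      _ ≤ _ := by rw [h2, h3]; linarith
  obtain ⟨Ub, hUb⟩ : ∃ Ub : ℝ → ℝ, Ub = fun t => ∑ n ∈ Finset.Icc 1 N,
      ((if n ∈ P1 then yy n ^ 2 * ‖bt T u t (1 * Real.log n)‖ ^ 2 else 0) +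
      (if n ∈ P2 then g ^ 2 * yy n ^ 2 * ‖bt T u t (g * Real.log n)‖ ^ 2 else 0) +
      2 * g * (vonMangoldt n ^ 2 / n * Real.exp (-((g - 1) * Real.log n) ^ 2 / 8)) *
        wt T t ^ 2) := ⟨_, rfl⟩
  have hi1 : ∀ n : ℕ, Integrable (fun t : ℝ =>
      if n ∈ P1 then yy n ^ 2 * ‖bt T u t (1 * Real.log n)‖ ^ 2 else 0) := by
    intro n
    split_ifs
    · exact (hb1 n).1.const_mul _
    · exact integrable_zero _ _ _
  have hi2 : ∀ n : ℕ, Integrable (fun t : ℝ =>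
      if n ∈ P2 then g ^ 2 * yy n ^ 2 * ‖bt T u t (g * Real.log n)‖ ^ 2 else 0) := by
    intro n
    split_ifs
    · exact (hb2 n).1.const_mul _
    · exact integrable_zero _ _ _
  have hi3 : ∀ n : ℕ, Integrable (fun t : ℝ => 2 * g * (vonMangoldt n ^ 2 / n *
      Real.exp (-((g - 1) * Real.log n) ^ 2 / 8)) * wt T t ^ 2) := fun n => hwi.1.const_mul _
  have hUi : Integrable Ub := by
    rw [hUb]
    exact integrable_finsetSum _ fun n _ => ((hi1 n).add (hi2 n)).add (hi3 n)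
  have hin1 : ∀ n : ℕ, ∫ t : ℝ, (if n ∈ P1 then yy n ^ 2 * ‖bt T u t (1 * Real.log n)‖ ^ 2 else 0) ≤
      vonMangoldt n ^ 2 / n * (T / (2 * Real.pi) * Real.exp (-(u - 1 * Real.log n) ^ 2) +
        Cb * L * Real.exp (-(u - 1 * Real.log n) ^ 2 / 2)) := by
    intro n
    split_ifs
    · rw [integral_const_mul, yy_sq]
      exact mul_le_mul_of_nonneg_left (hb1 n).2 (by positivity)
    · rw [integral_zero]; positivity
  have hin2 : ∀ n : ℕ, ∫ t : ℝ, (if n ∈ P2 then g ^ 2 * yy n ^ 2 *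
      ‖bt T u t (g * Real.log n)‖ ^ 2 else 0) ≤
      g ^ 2 * (vonMangoldt n ^ 2 / n * (T / (2 * Real.pi) * Real.exp (-(u - g * Real.log n) ^ 2) +
        Cb * L * Real.exp (-(u - g * Real.log n) ^ 2 / 2))) := by
    intro n
    split_ifs
    · rw [integral_const_mul, yy_sq, mul_assoc]
      refine mul_le_mul_of_nonneg_left ?_ (by positivity)
      exact mul_le_mul_of_nonneg_left (hb2 n).2 (by positivity)
    · rw [integral_zero]; positivity
  obtain ⟨h51, h52⟩ := hcr u hu0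
  obtain ⟨h53, h54⟩ := hcr v hv0
  have hgex : ∀ l : ℝ, Real.exp (-(u - g * l) ^ 2 / 2) ≤ Real.exp (-(v - l) ^ 2 / 2) := by
    intro l
    apply Real.exp_le_exp.2
    have h1 : (u - g * l) ^ 2 = g ^ 2 * (v - l) ^ 2 := by
      rw [← mul_pow, hv]; congr 1; field_simp
    rw [h1]
    have h2 : 1 ≤ g ^ 2 := one_le_pow₀ hg1'
    have h3 := mul_le_mul_of_nonneg_right h2 (sq_nonneg (v - l))
    rw [one_mul] at h3
    rw [neg_div, neg_div]
    exact neg_le_neg (div_le_div_of_nonneg_right h3 zero_le_two)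
  have hUint : ∫ t, Ub t ≤ T / (2 * Real.pi) * (inner 1 u + inner g u) + A1 * T := by
    have hI0 : ∀ n ∈ Finset.Icc 1 N, Integrable (fun t : ℝ => ((if n ∈ P1 then yy n ^ 2 *
        ‖bt T u t (1 * Real.log n)‖ ^ 2 else 0) +
      (if n ∈ P2 then g ^ 2 * yy n ^ 2 * ‖bt T u t (g * Real.log n)‖ ^ 2 else 0) +
      2 * g * (vonMangoldt n ^ 2 / n * Real.exp (-((g - 1) * Real.log n) ^ 2 / 8)) *
        wt T t ^ 2)) := fun n _ => ((hi1 n).add (hi2 n)).add (hi3 n)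
    rw [hUb]
    simp only
    rw [integral_finsetSum _ hI0]
    have hstep : ∀ n ∈ Finset.Icc 1 N, ∫ t : ℝ, ((if n ∈ P1 then yy n ^ 2 *
        ‖bt T u t (1 * Real.log n)‖ ^ 2 else 0) +
      (if n ∈ P2 then g ^ 2 * yy n ^ 2 * ‖bt T u t (g * Real.log n)‖ ^ 2 else 0) +
      2 * g * (vonMangoldt n ^ 2 / n * Real.exp (-((g - 1) * Real.log n) ^ 2 / 8)) *
        wt T t ^ 2) ≤
        T / (2 * Real.pi) * (vonMangoldt n ^ 2 / n * Real.exp (-(u - 1 * Real.log n) ^ 2)) +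
        T / (2 * Real.pi) * (g ^ 2 * (vonMangoldt n ^ 2 / n *
          Real.exp (-(u - g * Real.log n) ^ 2))) +
        Cb * L * (vonMangoldt n ^ 2 / n * Real.exp (-(u - Real.log n) ^ 2 / 2)) +
        Cb * L * g ^ 2 * (vonMangoldt n ^ 2 / n * Real.exp (-(v - Real.log n) ^ 2 / 2)) +
        2 * g * (T + C3) * (vonMangoldt n ^ 2 / n *
          Real.exp (-((g - 1) * Real.log n) ^ 2 / 8)) := by
      intro n _
      rw [int_add3 (hi1 n) (hi2 n) (hi3 n), integral_const_mul]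
      have k1 := hin1 n
      have k2 := hin2 n
      have k3 : 2 * g * (vonMangoldt n ^ 2 / n * Real.exp (-((g - 1) * Real.log n) ^ 2 / 8)) *
          ∫ t, wt T t ^ 2 ≤ 2 * g * (vonMangoldt n ^ 2 / n *
            Real.exp (-((g - 1) * Real.log n) ^ 2 / 8)) * (T + C3) :=
        mul_le_mul_of_nonneg_left hwi.2 (by positivity)
      have k4 : Cb * L * g ^ 2 * (vonMangoldt n ^ 2 / n *
          Real.exp (-(u - g * Real.log n) ^ 2 / 2)) ≤
          Cb * L * g ^ 2 * (vonMangoldt n ^ 2 / n * Real.exp (-(v - Real.log n) ^ 2 / 2)) := by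
        refine mul_le_mul_of_nonneg_left (mul_le_mul_of_nonneg_left (hgex _) (by positivity))
          (by positivity)
      rw [one_mul] at k1 ⊢
      obtain ⟨w, hw⟩ : ∃ w, w = vonMangoldt n ^ 2 / (n : ℝ) := ⟨_, rfl⟩
      rw [← hw] at k1 k2 k3 k4 ⊢
      linarith
    refine (Finset.sum_le_sum hstep).trans ?_
    simp only [Finset.sum_add_distrib, ← Finset.mul_sum]
    have t1 : ∑ n ∈ Finset.Icc 1 N, vonMangoldt n ^ 2 / n *
        Real.exp (-(u - 1 * Real.log n) ^ 2) ≤ inner 1 u := by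
      unfold Pool.Agent.N7.MainC.inner
      rw [one_pow, one_mul]
      exact (inner_summable one_pos u).sum_le_tsum _ (fun n _ => by positivity)
    have t2 : g ^ 2 * ∑ n ∈ Finset.Icc 1 N, vonMangoldt n ^ 2 / n *
        Real.exp (-(u - g * Real.log n) ^ 2) ≤ inner g u := by
      unfold Pool.Agent.N7.MainC.inner
      exact mul_le_mul_of_nonneg_left
        ((inner_summable hg0 u).sum_le_tsum _ (fun n _ => by positivity)) (by positivity)
    have t3 : ∑ n ∈ Finset.Icc 1 N, vonMangoldt n ^ 2 / n *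
        Real.exp (-(u - Real.log n) ^ 2 / 2) ≤ C5 * (u + 1) :=
      (h51.sum_le_tsum _ (fun n _ => by positivity)).trans h52
    have t4 : ∑ n ∈ Finset.Icc 1 N, vonMangoldt n ^ 2 / n *
        Real.exp (-(v - Real.log n) ^ 2 / 2) ≤ C5 * (u + 1) :=
      ((h53.sum_le_tsum _ (fun n _ => by positivity)).trans h54).trans
        (mul_le_mul_of_nonneg_left (by linarith) hC5.le)
    have t5 : ∑ n ∈ Finset.Icc 1 N, vonMangoldt n ^ 2 / n *
        Real.exp (-((g - 1) * Real.log n) ^ 2 / 8) ≤ Dm := by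
      rw [hDm]
      exact (mix_summable hg1).sum_le_tsum _ (fun n _ => by positivity)
    have hLu : L * (u + 1) ≤ 3 * T := by
      have h1 : L * (u + 1) ≤ L * (3 * L) := mul_le_mul_of_nonneg_left (by linarith) hL0.le
      have h2 : L * (3 * L) = 3 * L ^ 2 := by ring
      rw [h2] at h1
      exact h1.trans (mul_le_mul_of_nonneg_left hTL (by norm_num))
    have hTp : 0 ≤ T / (2 * Real.pi) := by positivity
    have q1 := mul_le_mul_of_nonneg_left t1 hTp
    have q2 := mul_le_mul_of_nonneg_left t2 hTp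
    have q3 := mul_le_mul_of_nonneg_left t3 (show 0 ≤ Cb * L by positivity)
    have q4 := mul_le_mul_of_nonneg_left t4 (show 0 ≤ Cb * L * g ^ 2 by positivity)
    have q5 := mul_le_mul_of_nonneg_left t5 (show 0 ≤ 2 * g * (T + C3) by positivity)
    have q6 : Cb * L * (C5 * (u + 1)) + Cb * L * g ^ 2 * (C5 * (u + 1)) ≤
        3 * Cb * (C5 + g ^ 2 * C5) * T := by
      have := mul_le_mul_of_nonneg_left hLu (show 0 ≤ Cb * (C5 + g ^ 2 * C5) by positivity)
      calc _ = Cb * (C5 + g ^ 2 * C5) * (L * (u + 1)) := by ring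
        _ ≤ _ := this
        _ = _ := by ring
    have q7 : 2 * g * (T + C3) * Dm ≤ 2 * g * Dm * (1 + C3) * T := by
      have h1 : T + C3 ≤ (1 + C3) * T := hTC
      calc _ = 2 * g * Dm * (T + C3) := by ring
        _ ≤ 2 * g * Dm * ((1 + C3) * T) := mul_le_mul_of_nonneg_left h1 (by positivity)
        _ = _ := by ring
    rw [hA1]
    linarith
  -- integration
  have hint : Integrable (fun t => (1 + δ) * ((1 + δ) * W * Ub t) +
      (1 + 1 / δ) * (E ^ 2 * W) * wt T t ^ 2) :=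
    ((hUi.const_mul _).const_mul _).add (hwi.1.const_mul _)
  have hW0' : 0 ≤ W := hWd ▸ hW0
  have hpt2 : ∀ t : ℝ, primFamM Q0 X Y (fun q χ => ‖Pq 1 (fun n => χ (n : ZMod q) * c1 n *
        (vonMangoldt n : ℂ)) T u t + Pq g (fun n => χ (n : ZMod q) * c2 n *
          (vonMangoldt n : ℂ)) T u t‖ ^ 2) ≤ (1 + δ) * ((1 + δ) * W * Ub t) +
      (1 + 1 / δ) * (E ^ 2 * W) * wt T t ^ 2 := by
    intro t
    refine (hpt t).trans (add_le_add ?_ le_rfl)
    refine mul_le_mul_of_nonneg_left (mul_le_mul_of_nonneg_left ?_ (by positivity)) (by linarith)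
    rw [hUb]
    exact Finset.sum_le_sum fun n _ => hterm n t
  refine (integral_mono_of_nonneg (Eventually.of_forall fun t =>
    H385.primFamM_nonneg _ _ _ _ fun q χ => by positivity) hint
    (Eventually.of_forall hpt2)).trans ?_
  rw [integral_add ((hUi.const_mul _).const_mul _) (hwi.1.const_mul _), integral_const_mul,
    integral_const_mul, integral_const_mul, ← hWd]
  have hI : 0 ≤ inner 1 u + inner g u := add_nonneg (inner_nonneg _ _) (inner_nonneg _ _)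
  obtain ⟨I, hIe⟩ : ∃ I, I = inner 1 u + inner g u := ⟨_, rfl⟩
  rw [← hIe] at hUint hI ⊢
  obtain ⟨Tp, hTp⟩ : ∃ Tp, Tp = T / (2 * Real.pi) := ⟨_, rfl⟩
  have hTp0 : 0 ≤ Tp := by rw [hTp]; positivity
  rw [← hTp] at hUint ⊢
  have hd : (1 + δ) * (1 + δ) ≤ 1 + s := by
    have h1 := mul_le_mul_of_nonneg_left hs1 hs.le
    have h2 : (1 + δ) * (1 + δ) = 1 + s / 2 + s * s / 16 := by rw [hδ]; ring
    rw [h2]
    clear * - h1 hs
    linarith
  have f1 : (1 + δ) * ((1 + δ) * W * ∫ t, Ub t) ≤ (1 + s) * W * (Tp * I + A1 * T) := by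
    have h1 : (1 + δ) * ((1 + δ) * W * ∫ t, Ub t) ≤ (1 + δ) * ((1 + δ) * W * (Tp * I + A1 * T)) :=
      mul_le_mul_of_nonneg_left (mul_le_mul_of_nonneg_left hUint (by positivity)) (by linarith)
    have h2 : (1 + δ) * ((1 + δ) * W * (Tp * I + A1 * T)) =
        ((1 + δ) * (1 + δ)) * (W * (Tp * I + A1 * T)) := by ring
    rw [h2] at h1
    refine h1.trans ?_
    have h3 := mul_le_mul_of_nonneg_right hd (show 0 ≤ W * (Tp * I + A1 * T) by positivity)
    linarith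
  have f2 : (1 + 1 / δ) * (E ^ 2 * W) * ∫ t, wt T t ^ 2 ≤
      (1 + 1 / δ) * (E ^ 2 * W) * ((1 + C3) * T) := by
    exact mul_le_mul_of_nonneg_left (hwi.2.trans hTC) (by positivity)
  calc _ ≤ (1 + s) * W * (Tp * I + A1 * T) + (1 + 1 / δ) * (E ^ 2 * W) * ((1 + C3) * T) :=
        add_le_add f1 f2
    _ = _ := by ring

/-- the mean square, without hypotheses -/
theorem two_ms : ∀ Q0 : ℕ, Squarefree Q0 → ∀ g : ℝ, 1 < g → ∀ s : ℝ, 0 < s → s ≤ 1 / 2 →
    ∃ K C X0 : ℝ, 1 ≤ K ∧ 0 < C ∧ 3 ≤ X0 ∧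
    ∀ (X Y : ℕ) (T u : ℝ) (c1 c2 : ℕ → ℂ), (∀ n, ‖c1 n‖ ≤ 1) → (∀ n, ‖c2 n‖ ≤ 1) →
      X0 ≤ X → K * X ≤ Y → (Real.log X) ^ 2 ≤ T → T ≤ X → 0 ≤ u →
      u ≤ (1 - s) * (2 * Real.log X) →
      ∫ t : ℝ, primFamM Q0 X Y (fun q χ => ‖Pq 1 (fun n => χ (n : ZMod q) * c1 n *
          (vonMangoldt n : ℂ)) T u t + Pq g (fun n => χ (n : ZMod q) * c2 n *
          (vonMangoldt n : ℂ)) T u t‖ ^ 2) ≤
        (1 + s) * WM Q0 X Y * (T / (2 * Real.pi)) * (inner 1 u + inner g u) +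
          C * WM Q0 X Y * T :=
  two_core (Pool.Agent.N880.HE.primM_main Pool.Agent.N880.HE.blockM_main
    Pool.Agent.N880.HD.cop_main)

end Pool.Agent.V8H24.RT
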