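import Pool.Agent.V8H24.ZS.NLow

/-! # Upper bound for the number of zeros of a system -/

set_option autoImplicit false
set_option maxHeartbeats 4000000

open Complex Filter Topology Set MeasureTheory
open H370 (zset mult NN Nd Ns)

namespace Pool.Agent.V8H24.RT

open H385 (zz cc BB A1 bt wt)
open H385.NLow
open Pool.Agent.V8H24.ZS (ZSys)

theorem N_upperZ {F : ℂ → ℂ} {T κ ℓ L C0 ρ : ℝ} {P : ℝ → ℝ → ℂ} (hF : ZSys F T κ ℓ L C0 ρ P)
    (hκ : 3 ≤ κ) (hκT : 8 * κ ≤ T) (hC0 : 0 < C0) (hL1 : 1 ≤ L) :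
    (NN F T (2 * T) : ℝ) ≤ T / (2 * Real.pi) * ℓ +
        (10 * C0) * (T + κ * L + T * L ^ 2 * Real.exp (-κ ^ 2 / 2)) := by
  obtain ⟨V1, hV1⟩ : ∃ V1, V1 = T - 3 * κ := ⟨_, rfl⟩
  obtain ⟨V2, hV2⟩ : ∃ V2, V2 = 2 * T + 3 * κ := ⟨_, rfl⟩
  have hfin := hF.fin
  have hform := hF.form
  have g3 := hF.cnt
  have g1 := hF.edge1
  have g2 := hF.edge2
  rw [← hV1, ← hV2] at hfin hform g3
  rw [← hV1] at g1
  rw [← hV2] at g2
  have hT24 : 24 ≤ T := by linarith
  have hT0 : 0 < T := by linarith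
  have hκ0 : 0 < κ := by linarith
  set ε := Real.exp (-κ ^ 2 / 2) with hε
  have hε0 : 0 < ε := Real.exp_pos _
  -- integral upper bound
  have hsp := H385.Cut.sqrt_pi_pos
  have hsq1 : Real.sqrt Real.pi ^ 2 = Real.pi := Real.sq_sqrt Real.pi_pos.le
  have hlow : ∀ m ∈ Icc T (2 * T), (A1 F V1 V2 0 m).re ≤
      1 / (2 * Real.sqrt Real.pi) * (ℓ + C0) + C0 * (1 + L ^ 2 * ε) := by
    intro m hm
    have h1 := hform 0 m le_rfl (by linarith [hm.1]) (by linarith [hm.2])
    have h2 : ((ℓ : ℂ) * cexp (I * m * (0 : ℝ)) * (Real.exp (-(0:ℝ) ^ 2 / 4) : ℂ) - P 0 m) =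
        (ℓ : ℂ) - P 0 m := by simp
    rw [h2] at h1
    have h3 : C0 * (Real.exp (-(ρ * (0:ℝ))) + L ^ 2 * Real.exp (0 - κ ^ 2 / 2)) =
        C0 * (1 + L ^ 2 * ε) := by
      rw [mul_zero, neg_zero, Real.exp_zero, zero_sub, hε]
      congr 4
      ring
    rw [h3] at h1
    have h4 := (abs_le.mp ((Complex.abs_re_le_norm _).trans h1)).2
    rw [Complex.sub_re, Complex.re_ofReal_mul, Complex.sub_re, Complex.ofReal_re] at h4
    have h5 : -C0 ≤ (P 0 m).re := by
      have := (abs_le.mp ((Complex.abs_re_le_norm (P 0 m)).trans (hF.P0 m))).1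
      exact this
    have h6 : 1 / (2 * Real.sqrt Real.pi) * (ℓ - (P 0 m).re) ≤
        1 / (2 * Real.sqrt Real.pi) * (ℓ + C0) := by
      apply mul_le_mul_of_nonneg_left (by linarith) (by positivity)
    linarith
  have hcont : Continuous (fun m : ℝ => A1 F V1 V2 0 m) := by
    simp only [A1_zero F V1 V2 hfin]
    fun_prop
  have hint : (∫ m in T..(2 * T), A1 F V1 V2 0 m).re ≤
      T * (1 / (2 * Real.sqrt Real.pi) * (ℓ + C0) + C0 * (1 + L ^ 2 * ε)) := by
    have h1 : (∫ m in T..(2 * T), A1 F V1 V2 0 m).re = ∫ m in T..(2 * T), (A1 F V1 V2 0 m).re := by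
      have := (Complex.reCLM.intervalIntegral_comp_comm
        (hcont.intervalIntegrable (μ := volume) T (2 * T)))
      simpa using this.symm
    rw [h1]
    have h2 : ∫ m in T..(2 * T), (1 / (2 * Real.sqrt Real.pi) * (ℓ + C0) + C0 * (1 + L ^ 2 * ε)) =
        T * (1 / (2 * Real.sqrt Real.pi) * (ℓ + C0) + C0 * (1 + L ^ 2 * ε)) := by
      rw [intervalIntegral.integral_const, smul_eq_mul]
      ring
    rw [← h2]
    apply intervalIntegral.integral_mono_on (by linarith)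
    · exact (Complex.continuous_re.comp hcont).intervalIntegrable _ _
    · exact continuous_const.intervalIntegrable _ _
    · exact hlow
  -- lower bound of the zero side
  have hup : ∀ s ∈ hfin.toFinset, (if T < s.im ∧ s.im ≤ 2 * T then (1 : ℝ) else 0) -
      3 * (if V1 < s.im ∧ s.im ≤ T + κ then 1 else 0) -
      3 * (if 2 * T - κ < s.im ∧ s.im ≤ V2 then 1 else 0) -
      2 * ε * (if V1 < s.im ∧ s.im ≤ V2 then 1 else 0) ≤ (c1 T (zz s)).re := by
    intro s hs
    rw [Finite.mem_toFinset] at hs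
    obtain ⟨hs1, hs2, hs3, hs4, _⟩ := hs
    have him : |(zz s).im| ≤ 1 / 2 := by
      rw [zz_im, abs_le]
      constructor <;> linarith
    rw [if_pos (⟨hs3, hs4⟩ : V1 < s.im ∧ s.im ≤ V2)]
    have i1 : (if T < s.im ∧ s.im ≤ 2 * T then (1 : ℝ) else 0) ≤ 1 := by split_ifs <;> norm_num
    have i2 : (0:ℝ) ≤ if V1 < s.im ∧ s.im ≤ T + κ then 1 else 0 := by split_ifs <;> norm_num
    have i3 : (0:ℝ) ≤ if 2 * T - κ < s.im ∧ s.im ≤ V2 then 1 else 0 := by
      split_ifs <;> norm_num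
    rcases le_or_gt s.im (T + κ) with h2 | h2
    · have := c1_bound T (by linarith) (zz s) him
      have h3 := (abs_le.mp (Complex.abs_re_le_norm (c1 T (zz s)))).1
      rw [if_pos (⟨hs3, h2⟩ : V1 < s.im ∧ s.im ≤ T + κ)]
      linarith
    rcases le_or_gt s.im (2 * T - κ) with h3 | h3
    · have := c1_near T κ (by linarith) (zz s) him (by rw [zz_re]; exact h2.le)
        (by rw [zz_re]; exact h3)
      have h4 := (abs_le.mp (Complex.abs_re_le_norm (c1 T (zz s) - 1))).1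
      rw [Complex.sub_re, Complex.one_re] at h4
      rw [if_pos (⟨by linarith, by linarith⟩ : T < s.im ∧ s.im ≤ 2 * T)]
      linarith
    · have := c1_bound T (by linarith) (zz s) him
      have h5 := (abs_le.mp (Complex.abs_re_le_norm (c1 T (zz s)))).1
      rw [if_pos (⟨h3, hs4⟩ : 2 * T - κ < s.im ∧ s.im ≤ V2)]
      linarith
  have hsum : (NN F T (2 * T) : ℝ) - 3 * NN F V1 (T + κ) - 3 * NN F (2 * T - κ) V2 -
        2 * ε * NN F V1 V2 ≤ (∑ s ∈ hfin.toFinset, (mult F s : ℂ) * c1 T (zz s)).re := by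
    rw [Complex.re_sum, NN_eq_sum F V1 V2 hfin T (2 * T) (by linarith) (by linarith),
      NN_eq_sum F V1 V2 hfin V1 (T + κ) (by linarith) (by linarith),
      NN_eq_sum F V1 V2 hfin (2 * T - κ) V2 (by linarith) (by linarith),
      NN_eq_sum F V1 V2 hfin V1 V2 le_rfl le_rfl, Finset.mul_sum, Finset.mul_sum, Finset.mul_sum,
      ← Finset.sum_sub_distrib, ← Finset.sum_sub_distrib, ← Finset.sum_sub_distrib]
    apply Finset.sum_le_sum
    intro s hs
    have h1 : ((mult F s : ℂ) * c1 T (zz s)).re = (mult F s : ℝ) * (c1 T (zz s)).re := by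
      rw [show (mult F s : ℂ) = ((mult F s : ℝ) : ℂ) by push_cast; rfl, Complex.re_ofReal_mul]
    rw [h1]
    have h2 := mul_le_mul_of_nonneg_left (hup s hs) (Nat.cast_nonneg (α := ℝ) (mult F s))
    refine (le_of_eq ?_).trans h2
    ring
  have hA1 := A1_integral F V1 V2 T hfin
  have hre := congrArg Complex.re hA1
  rw [Complex.re_ofReal_mul] at hre
  have hfinal : (NN F T (2 * T) : ℝ) - 3 * NN F V1 (T + κ) - 3 * NN F (2 * T - κ) V2 -
        2 * ε * NN F V1 V2 ≤ 1 / Real.sqrt Real.pi *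
      (T * (1 / (2 * Real.sqrt Real.pi) * (ℓ + C0) + C0 * (1 + L ^ 2 * ε))) := by
    calc _ ≤ 1 / Real.sqrt Real.pi * (∫ m in T..(2 * T), A1 F V1 V2 0 m).re := by
          rw [hre]; exact hsum
      _ ≤ _ := mul_le_mul_of_nonneg_left hint (by positivity)
  have hs1 : 1 ≤ Real.sqrt Real.pi := by
    rw [Real.le_sqrt (by norm_num) (by positivity)]
    have := Real.pi_gt_three
    linarith
  have hleft : 1 / Real.sqrt Real.pi *
      (T * (1 / (2 * Real.sqrt Real.pi) * (ℓ + C0) + C0 * (1 + L ^ 2 * ε))) ≤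
      T / (2 * Real.pi) * ℓ + T * C0 + C0 * (T + T * L ^ 2 * ε) := by
    have e1 : 1 / Real.sqrt Real.pi *
      (T * (1 / (2 * Real.sqrt Real.pi) * (ℓ + C0) + C0 * (1 + L ^ 2 * ε))) =
      T / (2 * Real.pi) * ℓ + T * C0 * (1 / (2 * Real.pi)) +
        (1 / Real.sqrt Real.pi) * (C0 * (T + T * L ^ 2 * ε)) := by
      have hs2 : Real.pi = Real.sqrt Real.pi * Real.sqrt Real.pi := by rw [← sq, hsq1]
      generalize Real.sqrt Real.pi = s at hs2 hsp ⊢
      rw [hs2]
      field_simp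
    rw [e1]
    have e2 : 1 / (2 * Real.pi) ≤ 1 := by
      rw [div_le_one (by positivity)]
      have := Real.pi_gt_three
      linarith
    have e3 : 1 / Real.sqrt Real.pi ≤ 1 := by
      rw [div_le_one hsp]
      exact hs1
    have e4 : T * C0 * (1 / (2 * Real.pi)) ≤ T * C0 :=
      mul_le_of_le_one_right (by positivity) e2
    have e5 : (1 / Real.sqrt Real.pi) * (C0 * (T + T * L ^ 2 * ε)) ≤ C0 * (T + T * L ^ 2 * ε) :=
      mul_le_of_le_one_left (by positivity) e3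
    linarith
  have g4 : 2 * ε * (NN F V1 V2 : ℝ) ≤ 2 * C0 * (T * L ^ 2 * ε) := by
    calc 2 * ε * (NN F V1 V2 : ℝ) ≤ 2 * ε * (C0 * (T * L)) :=
          mul_le_mul_of_nonneg_left g3 (by positivity)
      _ = 2 * C0 * T * ε * L := by ring
      _ ≤ 2 * C0 * T * ε * L ^ 2 := by
          apply mul_le_mul_of_nonneg_left _ (by positivity)
          nlinarith
      _ = _ := by ring
  have hTL : 0 ≤ T * L ^ 2 * ε := by positivity
  have hκL : 0 ≤ κ * L := by positivity
  have q4 := mul_nonneg hC0.le hT0.le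
  have q5 := mul_nonneg hC0.le hTL
  have q6 := mul_nonneg hC0.le hκL
  have hexp : (10 * C0) * (T + κ * L + T * L ^ 2 * ε) =
      10 * (C0 * T) + 10 * (C0 * (κ * L)) + 10 * (C0 * (T * L ^ 2 * ε)) := by ring
  rw [hexp]
  linarith

end Pool.Agent.V8H24.RT
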