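import Pool.Agent.V8H24.RT.Pre
import Pool.Agent.V8H24.RT.Up
import Pool.Agent.V8H24.RT.Two

/-! # The family theorem for `L(s, χ ψ₁)` and the dilated `L(s, χ ψ₂)` -/

set_option autoImplicit false
set_option maxHeartbeats 4000000

open Complex Filter Topology Set MeasureTheory
open scoped BigOperators ComplexConjugate

namespace Pool.Agent.V8H24.RT

open H370 (zset mult NN Nd Ns)
open H385 (primFamM primFamM_eq primSetM mem_primSetM Rw IX WM)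
open W388 (GoodE rad rad_squarefree coprime_rad primFamM_rad)
open Pool.Agent.V8H24.ZS (ZSys dil dm MainW zsys_comp coreZS PQ PG Pq N_lowerZ)
open Pool.Agent.V8H24.LI (LT good_LT tw tw_norm)
open Pool.Agent.N7.MainC (inner)
open Pool.Agent.N880.HP (c2 c2_main)

/-- numerical inequalities -/
lemma num_a {s η τ g lX lT γ L : ℝ} (hs : 0 < s) (hs1 : s ≤ 1 / 2) (hη : 0 < η) (hηs : η ≤ s / 2)
    (hτ : 0 ≤ τ) (hg : 1 < g) (hlX : 0 < lX) (hlT : lT ≤ (τ + η) * lX)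
    (hγ : γ = 4 / ((1 + τ) * (1 + g))) (hL : L = (1 + g) * (lX + lT)) :
    (1 - s) * (γ / 2) * L ≤ (1 - s / 2) * (2 * lX) := by
  have h1 : 0 < 1 + τ := by linarith
  have h2 : 0 < 1 + g := by linarith
  have e1 : (1 - s) * (γ / 2) * L = (1 - s) * 2 * (lX + lT) / (1 + τ) := by
    rw [hγ, hL]; field_simp; ring
  rw [e1, div_le_iff₀ h1]
  have h3 : lX + lT ≤ (1 + τ + η) * lX := by linarith
  have h4 : (1 - s) * 2 * (lX + lT) ≤ (1 - s) * 2 * ((1 + τ + η) * lX) :=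
    mul_le_mul_of_nonneg_left h3 (by linarith)
  have h5 : (1 - s) * (1 + τ + η) ≤ (1 - s / 2) * (1 + τ) := by
    nlinarith [mul_nonneg hs.le hτ, mul_nonneg hs.le hη.le]
  have h6 := mul_le_mul_of_nonneg_right h5 (show 0 ≤ 2 * lX by linarith)
  calc _ ≤ _ := h4
    _ = (1 - s) * (1 + τ + η) * (2 * lX) := by ring
    _ ≤ _ := h6
    _ = _ := by ring

lemma nl1 {x H : ℝ} (h : x ^ 2 ≤ H) (h8 : 8 ≤ x) : 64 ≤ H := by nlinarith

lemma nl2 {x H : ℝ} (h : x ^ 2 ≤ H) (h8 : 8 ≤ x) : 8 * x ≤ H := by nlinarith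

lemma nl3 {a x T : ℝ} (h : a ≤ x) (h8 : 8 ≤ x) (h2 : x ^ 2 ≤ T) : a ≤ T := by nlinarith

lemma nl4 {g L : ℝ} (h : 2 * g ≤ L) (h8 : 8 ≤ L) : 2 * g + L ≤ L ^ 2 / 2 := by nlinarith

lemma nl5 {L : ℝ} (h8 : 8 ≤ L) : L ≤ L ^ 2 / 2 := by nlinarith

lemma nl6 {g η η1 lX lT lq y lm lr : ℝ} (hg : 1 < g) (h1 : lq ≤ (1 + η) * lX)
    (h2 : y ≤ lr + lT) (h3 : lm + g * lr ≤ (1 + g) * η1 * lX) (h4 : η ≤ η1) (h5 : 0 ≤ lX)
    (h6 : 0 ≤ lT) (h7 : 0 ≤ η1) :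
    lm + lq + lT + g * (lq + y) ≤ (1 + 2 * η1) * ((1 + g) * (lX + lT)) := by
  have hg0 : 0 ≤ g := by linarith
  have d1 : g * (lq + y) ≤ g * ((1 + η) * lX + (lr + lT)) :=
    mul_le_mul_of_nonneg_left (by linarith) hg0
  have d2 : (1 + g) * (η * lX) ≤ (1 + g) * (η1 * lX) :=
    mul_le_mul_of_nonneg_left (mul_le_mul_of_nonneg_right h4 h5) (by linarith)
  have d3 : 0 ≤ (1 + g) * η1 * lT := by positivity
  calc lm + lq + lT + g * (lq + y) ≤ lm + (1 + η) * lX + lT + g * ((1 + η) * lX + (lr + lT)) := by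
        linarith
    _ = (lm + g * lr) + (1 + g) * (η * lX) + (1 + g) * (lX + lT) := by ring
    _ ≤ (1 + g) * η1 * lX + (1 + g) * (η1 * lX) + (1 + g) * (lX + lT) := by linarith
    _ ≤ (1 + g) * η1 * lX + (1 + g) * (η1 * lX) + (1 + g) * (lX + lT) +
          2 * ((1 + g) * η1 * lT) := by linarith
    _ = _ := by ring

lemma nl7 {L : ℝ} (h8 : 8 ≤ L) : 9 * L ^ 2 * Real.exp (-L ^ 2 / 2) ≤ 1 := by
  obtain ⟨x, hx⟩ : ∃ x, x = L ^ 2 := ⟨_, rfl⟩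
  have hx64 : 64 ≤ x := by rw [hx]; nlinarith
  rw [← hx]
  have e1 : Real.exp (-x / 2) = (Real.exp (x / 8) ^ 4)⁻¹ := by
    rw [← Real.exp_nat_mul, ← Real.exp_neg]
    congr 1
    push_cast
    ring
  rw [e1, mul_inv_le_iff₀ (by positivity), one_mul]
  have h3 := Real.add_one_le_exp (x / 8)
  have h4 : (x / 8 + 1) ^ 4 ≤ Real.exp (x / 8) ^ 4 := pow_le_pow_left₀ (by positivity) h3 4
  have h5 : 81 ≤ (x / 8 + 1) ^ 2 := by nlinarith
  have h6 : x / 2 ≤ (x / 8 + 1) ^ 2 := by nlinarith [sq_nonneg (x / 8 - 1)]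
  have h7 : 81 * (x / 2) ≤ (x / 8 + 1) ^ 2 * (x / 8 + 1) ^ 2 :=
    mul_le_mul h5 h6 (by positivity) (by positivity)
  have h8 : (x / 8 + 1) ^ 2 * (x / 8 + 1) ^ 2 = (x / 8 + 1) ^ 4 := by ring
  linarith

lemma nl8 {τ g : ℝ} (hτ : 0 ≤ τ) (hg : 1 < g) : 4 ≤ 2 * ((1 + τ) * (1 + g)) := by nlinarith

lemma nl9 {s W t I : ℝ} (hs : 0 < s) (h : 0 ≤ W * t * I) :
    (1 + s / 2) * W * t * I ≤ (1 + s) * W * t * I := by nlinarith

/-- the number of zeros of a system -/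
lemma N_both {F : ℂ → ℂ} {H L Lm ℓ C ρ : ℝ} {P : ℝ → ℝ → ℂ} (hF : ZSys F H L ℓ Lm C ρ P)
    (hC : 0 < C) (hL8 : 8 ≤ L) (hLH : L ^ 2 ≤ H) (hLm1 : 1 ≤ Lm) (hLm : Lm ≤ 3 * L) :
    |(NN F H (2 * H) : ℝ) - H / (2 * Real.pi) * ℓ| ≤ 50 * C * H := by
  have h64 := nl1 hLH hL8
  have hH0 : 0 < H := by linarith
  have h8 : 8 * L ≤ H := nl2 hLH hL8
  have h1 := N_lowerZ hF (by linarith) h8 hC hLm1
  have h2 := N_upperZ hF (by linarith) h8 hC hLm1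
  have a2 : L * Lm ≤ 3 * H := by
    have : L * Lm ≤ L * (3 * L) := mul_le_mul_of_nonneg_left hLm (by linarith)
    linarith [show L * (3 * L) = 3 * L ^ 2 by ring]
  have a3 : H * Lm ^ 2 * Real.exp (-L ^ 2 / 2) ≤ H := by
    have b1 : Lm ^ 2 ≤ 9 * L ^ 2 := by
      have h0 : Lm ^ 2 ≤ (3 * L) ^ 2 := pow_le_pow_left₀ (by linarith) hLm 2
      linarith [show (3 * L) ^ 2 = 9 * L ^ 2 by ring]
    have b2 : Lm ^ 2 * Real.exp (-L ^ 2 / 2) ≤ 1 :=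
      (mul_le_mul_of_nonneg_right b1 (Real.exp_pos _).le).trans (nl7 hL8)
    calc _ = H * (Lm ^ 2 * Real.exp (-L ^ 2 / 2)) := by ring
      _ ≤ H * 1 := mul_le_mul_of_nonneg_left b2 hH0.le
      _ = H := mul_one H
  have a4 : 10 * C * (H + L * Lm + H * Lm ^ 2 * Real.exp (-L ^ 2 / 2)) ≤ 50 * C * H := by
    have : 10 * C * (H + L * Lm + H * Lm ^ 2 * Real.exp (-L ^ 2 / 2)) ≤ 10 * C * (5 * H) :=
      mul_le_mul_of_nonneg_left (by linarith) (by positivity)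
    linarith
  rw [abs_le]
  constructor <;> linarith

/-- the first function, translated -/
noncomputable def G1 {m : ℕ} (ψ : DirichletCharacter ℂ m) (T H : ℝ) (q : ℕ)
    (χ : DirichletCharacter ℂ q) : ℂ → ℂ := dil 1 (T - H) (LT ψ q χ)

/-- the second function, dilated and translated -/
noncomputable def G2 {m : ℕ} (ψ : DirichletCharacter ℂ m) (g α T H : ℝ) (q : ℕ)
    (χ : DirichletCharacter ℂ q) : ℂ → ℂ := dil g (T - H + α) (LT ψ q χ)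

theorem core {m₁ m₂ : ℕ} (hm₁ : m₁ ≠ 0) (hm₂ : m₂ ≠ 0) (ψ₁ : DirichletCharacter ℂ m₁)
    (ψ₂ : DirichletCharacter ℂ m₂) (hψ₁ : ψ₁.IsPrimitive) (hψ₂ : ψ₂.IsPrimitive) (g α : ℝ)
    (hg : 1 < g) (τ ε : ℝ) (hτ : 0 ≤ τ) (hε : 0 < ε) :
    ∃ K η X0 : ℝ, 1 ≤ K ∧ 0 < η ∧ 1 ≤ X0 ∧
    ∀ (X Y : ℕ) (T H : ℝ), X0 ≤ X → K * X ≤ Y → (Y : ℝ) ≤ (X : ℝ) ^ (1 + η) →
      ((1 + g) * (2 + τ) * Real.log X) ^ 2 ≤ H → H ≤ (X : ℝ) ^ η → H + |α| ≤ T →
      T ≤ (X : ℝ) ^ (τ + η) →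
      1 ≤ H ∧ (∀ q : ℕ, X < q → q ≤ Y → Nat.Coprime q (m₁ * m₂) → ∀ χ : DirichletCharacter ℂ q,
        χ.IsPrimitive → (zset (G1 ψ₁ T H q χ) H (2 * H)).Finite ∧
        (zset (G2 ψ₂ g α T H q χ) H (2 * H)).Finite ∧
        Reg (G1 ψ₁ T H q χ) H ∧ Reg (G2 ψ₂ g α T H q χ) H ∧
        (1 : ℝ) ≤ (NN (G1 ψ₁ T H q χ) H (2 * H) : ℝ) ∧
        |(NN (G2 ψ₂ g α T H q χ) H (2 * H) : ℝ) - g * (NN (G1 ψ₁ T H q χ) H (2 * H) : ℝ)| ≤
          ε * (NN (G1 ψ₁ T H q χ) H (2 * H) : ℝ)) ∧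
      primFamM (m₁ * m₂) X Y (fun q χ =>
          2 * (NN (fun s => G1 ψ₁ T H q χ s * G2 ψ₂ g α T H q χ s) H (2 * H) : ℝ) -
          (Ns (fun s => G1 ψ₁ T H q χ s * G2 ψ₂ g α T H q χ s) H (2 * H) : ℝ)) ≤
        (c2 (4 / ((1 + τ) * (1 + g))) + ε) * primFamM (m₁ * m₂) X Y (fun q χ =>
          (NN (fun s => G1 ψ₁ T H q χ s * G2 ψ₂ g α T H q χ s) H (2 * H) : ℝ)) ∧
      primFamM (m₁ * m₂) X Y (fun q χ =>
          3 * (NN (fun s => G1 ψ₁ T H q χ s * G2 ψ₂ g α T H q χ s) H (2 * H) : ℝ) -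
          2 * (Nd (fun s => G1 ψ₁ T H q χ s * G2 ψ₂ g α T H q χ s) H (2 * H) : ℝ)) ≤
        (c2 (4 / ((1 + τ) * (1 + g))) + ε) * primFamM (m₁ * m₂) X Y (fun q χ =>
          (NN (fun s => G1 ψ₁ T H q χ s * G2 ψ₂ g α T H q χ s) H (2 * H) : ℝ)) := by
  have hg0 : 0 < g := by linarith
  have hgp : 0 < 1 + g := by linarith
  have hgm : 0 < g - 1 := by linarith
  have hpi := Real.pi_pos
  have hpi3 := Real.pi_gt_three
  have hm0 : m₁ * m₂ ≠ 0 := Nat.mul_ne_zero hm₁ hm₂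
  obtain ⟨m, hm⟩ : ∃ m, m = m₁ * m₂ := ⟨_, rfl⟩
  rw [← hm] at hm0 ⊢
  have hm1r : (1 : ℝ) ≤ m₁ := by exact_mod_cast Nat.one_le_iff_ne_zero.2 hm₁
  have hm2r : (1 : ℝ) ≤ m₂ := by exact_mod_cast Nat.one_le_iff_ne_zero.2 hm₂
  obtain ⟨A1, hA1, hgd1⟩ := good_LT hm₁ ψ₁ hψ₁
  obtain ⟨A2, hA2, hgd2⟩ := good_LT hm₂ ψ₂ hψ₂
  obtain ⟨D, hD⟩ : ∃ D, D = ∑' n : ℕ, ArithmeticFunction.vonMangoldt n *
    (n : ℝ) ^ (-(3 / 2) : ℝ) := ⟨_, rfl⟩
  have hD0 : 0 ≤ D := hD ▸ tsum_nonneg fun n =>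
    mul_nonneg ArithmeticFunction.vonMangoldt_nonneg (by positivity)
  obtain ⟨C1, hC1, hz1⟩ := zsys_comp 1 (A1 + D) 1 le_rfl (by linarith) le_rfl
  obtain ⟨C2, hC2, hz2⟩ := zsys_comp 1 (A2 + D) g le_rfl (by linarith) hg.le
  obtain ⟨γ, hγ⟩ : ∃ γ, γ = 4 / ((1 + τ) * (1 + g)) := ⟨_, rfl⟩
  rw [← hγ]
  have hγ0 : 0 < γ := by rw [hγ]; positivity
  have hγ2 : γ ≤ 2 := by
    rw [hγ, div_le_iff₀ (by positivity)]
    exact nl8 hτ hg
  obtain ⟨-, hγπ, hcid⟩ := c2_main.1 γ hγ0 hγ2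
  obtain ⟨D1, hD1, hW⟩ := mainW_two hg.le γ hγ0 hγπ
  have h1g : 1 / g ≤ 1 := by rw [div_le_one hg0]; exact hg.le
  obtain ⟨s, η1, hs, hs1, hη1, hη11, hcore⟩ := coreZS (C1 + C2) (1 / g) (by positivity)
    (by positivity) h1g (fun u => inner 1 u + inner g u) 2 γ (c2 γ + ε) D1 (γ / 2) hD1
    (by norm_num) hγ0 hγπ (by positivity) hW (by
      have e1 : Rw γ 0 / (γ / 2) + 2 * (γ / 2) * (2 * ∫ α in (0 : ℝ)..1, α * Rw γ α) = c2 γ := by
        rw [← hcid]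
        field_simp
      rw [e1]
      linarith)
  obtain ⟨K, CM, X1, hK, hCM, hX1, hms⟩ := two_ms (rad m) (rad_squarefree m) g hg (s / 2)
    (by positivity) (by linarith)
  obtain ⟨L0, hL0, hcore'⟩ := hcore CM hCM
  obtain ⟨η, hη⟩ : ∃ η, η = min η1 (s / 2) := ⟨_, rfl⟩
  have hη0 : 0 < η := by rw [hη]; exact lt_min hη1 (by positivity)
  have hηη1 : η ≤ η1 := hη ▸ min_le_left _ _
  have hηs : η ≤ s / 2 := hη ▸ min_le_right _ _
  have hη1' : η ≤ 1 := by linarith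
  have habs : 0 ≤ |α| := abs_nonneg α
  have h1α : 1 ≤ 1 + |α| := by linarith
  have hR1 : 1 ≤ (m₂ : ℝ) * g * (1 + |α|) :=
    one_le_mul_of_one_le_of_one_le (one_le_mul_of_one_le_of_one_le hm2r hg.le) h1α
  obtain ⟨lr, hlr⟩ : ∃ lr, lr = Real.log ((m₂ : ℝ) * g * (1 + |α|)) := ⟨_, rfl⟩
  have hlr0 : 0 ≤ lr := hlr ▸ Real.log_nonneg hR1
  obtain ⟨lm, hlm⟩ : ∃ lm, lm = Real.log (m₁ : ℝ) := ⟨_, rfl⟩
  have hlm0 : 0 ≤ lm := hlm ▸ Real.log_nonneg hm1r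
  obtain ⟨Cp, hCp⟩ : ∃ Cp, Cp = lm + g * lr := ⟨_, rfl⟩
  have hCp0 : 0 ≤ Cp := by rw [hCp]; positivity
  obtain ⟨Cl, hCl⟩ : ∃ Cl, Cl = g * (lm + lr) := ⟨_, rfl⟩
  have hCl0 : 0 ≤ Cl := by rw [hCl]; positivity
  obtain ⟨C4, hC4⟩ : ∃ C4, C4 = Cl + 50 * C2 + 50 * g * C1 := ⟨_, rfl⟩
  have hC40 : 0 < C4 := by rw [hC4]; positivity
  obtain ⟨M, hM⟩ : ∃ M, M = L0 + 8 + g * |α| / (g - 1) + Cp / ((1 + g) * η1) +
    2 * Real.pi * (1 + g) * (50 * C1 + 1 + C4 / ε) + 2 * g := ⟨_, rfl⟩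
  have z1 : 0 ≤ g * |α| / (g - 1) := by positivity
  have z2 : 0 ≤ Cp / ((1 + g) * η1) := by positivity
  have z3 : 0 ≤ 2 * Real.pi * (1 + g) * (50 * C1 + 1 + C4 / ε) := by positivity
  refine ⟨K, η, max X1 (Real.exp M), hK, hη0, by
    refine le_trans ?_ (le_max_left _ _); linarith, ?_⟩
  intro X Y T H hX hKX hYX hLH0 hHX hHT hTX
  have hX1' : X1 ≤ X := (le_max_left _ _).trans hX
  have hX3 : (3 : ℝ) ≤ X := hX1.trans hX1'
  have hXpos : (0 : ℝ) < X := by linarith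
  obtain ⟨lX, hlX⟩ : ∃ lX, lX = Real.log X := ⟨_, rfl⟩
  have hMX : M ≤ lX := by
    rw [hlX, Real.le_log_iff_exp_le hXpos]
    exact (le_max_right _ _).trans hX
  rw [← hlX] at hLH0
  have hlX8 : 8 ≤ lX := by linarith
  have hlXL : L0 ≤ lX := by linarith
  have hlX0 : 0 < lX := by linarith
  have hH64 : (lX) ^ 2 ≤ H := by
    refine le_trans (pow_le_pow_left₀ hlX0.le ?_ 2) hLH0
    refine le_mul_of_one_le_left hlX0.le ?_
    exact one_le_mul_of_one_le_of_one_le (by linarith) (by linarith)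
  have hH1 : 64 ≤ H := nl1 hH64 hlX8
  have hHpos : 0 < H := by linarith
  have hHT' : H ≤ T := by linarith
  have hT1 : 1 ≤ T := by linarith
  have hTpos : 0 < T := by linarith
  obtain ⟨lT, hlT⟩ : ∃ lT, lT = Real.log T := ⟨_, rfl⟩
  have hlT0 : 0 ≤ lT := hlT ▸ Real.log_nonneg hT1
  have hlTX : lT ≤ (τ + η) * lX := by
    have := Real.log_le_log hTpos hTX
    rwa [Real.log_rpow hXpos, ← hlT, ← hlX] at this
  obtain ⟨L, hLdef⟩ : ∃ L, L = (1 + g) * (lX + lT) := ⟨_, rfl⟩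
  have hLX : lX ≤ L := by
    rw [hLdef]
    have : 1 * lX ≤ (1 + g) * (lX + lT) :=
      mul_le_mul (by linarith) (by linarith) hlX0.le hgp.le
    linarith
  have hL8 : 8 ≤ L := by linarith
  have hL0L : L0 ≤ L := by linarith
  have hLle : L ≤ (1 + g) * (2 + τ) * lX := by
    rw [hLdef, mul_assoc]
    refine mul_le_mul_of_nonneg_left ?_ hgp.le
    have : (τ + η) * lX ≤ (τ + 1) * lX := mul_le_mul_of_nonneg_right (by linarith) hlX0.le
    linarith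
  have hLH : L ^ 2 ≤ H := (pow_le_pow_left₀ (by linarith) hLle 2).trans hLH0
  have hlTL : lT ≤ L := by
    rw [hLdef]
    have : 1 * lT ≤ (1 + g) * (lX + lT) :=
      mul_le_mul (by linarith) (by linarith) hlT0 hgp.le
    linarith
  have hTexp : T ≤ Real.exp L := by
    rw [← Real.log_le_iff_le_exp hTpos, ← hlT]; exact hlTL
  obtain ⟨Lm, hLm⟩ : ∃ Lm, Lm = (1 + 2 * η1) * L := ⟨_, rfl⟩
  have hLm3 : Lm ≤ 3 * L := by
    rw [hLm]; exact mul_le_mul_of_nonneg_right (by linarith) (by linarith)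
  have hLmL : L ≤ Lm := by
    rw [hLm]; exact le_mul_of_one_le_left (by linarith) (by linarith)
  have h8L : 8 * L ≤ H := nl2 hLH hL8
  have hα0 : 0 ≤ T - H := by linarith
  have hα2 : 0 ≤ T - H + α := by
    have := neg_abs_le α
    linarith
  have hTα1 : T ≤ g * (T + α) := by
    have h1 : g * |α| ≤ (g - 1) * T := by
      have h2 : g * |α| / (g - 1) ≤ T :=
        nl3 (show g * |α| / (g - 1) ≤ lX by linarith) hlX8 (hH64.trans hHT')
      have h3 := (div_le_iff₀ hgm).1 h2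
      rw [mul_comm (g - 1) T]
      exact h3
    have h3 := mul_le_mul_of_nonneg_left (neg_abs_le α) hg0.le
    linarith
  have hTα2 : g * (T + α) ≤ g * (1 + |α|) * T := by
    have h1 : T + α ≤ (1 + |α|) * T := by
      have h2 := le_abs_self α
      have h3 : |α| ≤ |α| * T := le_mul_of_one_le_right habs hT1
      linarith
    calc g * (T + α) ≤ g * ((1 + |α|) * T) := mul_le_mul_of_nonneg_left h1 hg0.le
      _ = _ := by ring
  have hexpg : g * (T + α) ≤ Real.exp (L ^ 2 / 2) := by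
    have h1 : T + α ≤ 2 * T := by
      have := le_abs_self α
      linarith
    have h2 : g * (T + α) ≤ 2 * g * T := by
      have := mul_le_mul_of_nonneg_left h1 hg0.le
      linarith
    have h3 : 2 * g ≤ Real.exp (2 * g) := by
      have := Real.add_one_le_exp (2 * g)
      linarith
    have h4 : 2 * g * T ≤ Real.exp (2 * g) * Real.exp L :=
      mul_le_mul h3 hTexp hTpos.le (Real.exp_pos _).le
    rw [← Real.exp_add] at h4
    refine h2.trans (h4.trans (Real.exp_le_exp.2 ?_))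
    exact nl4 (by linarith) hL8
  have hcp : (X : ℝ) ^ (1 + η) ≤ (X : ℝ) ^ (1 + η) := le_rfl
  -- the sizes
  obtain ⟨ℓ1, hℓ1⟩ : ∃ ℓ1 : ℕ → ℝ, ℓ1 = fun q : ℕ =>
    1 * (1 * Real.log ((m₁ : ℝ) * (q : ℝ) * (1 * (H + (T - H))))) := ⟨_, rfl⟩
  obtain ⟨ℓ2, hℓ2⟩ : ∃ ℓ2 : ℕ → ℝ, ℓ2 = fun q : ℕ =>
    g * (1 * Real.log ((m₂ : ℝ) * (q : ℝ) * (g * (H + (T - H + α))))) := ⟨_, rfl⟩
  have hTH : H + (T - H) = T := by ring
  have hTH2 : H + (T - H + α) = T + α := by ring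
  have hsize : ∀ q : ℕ, X < q → q ≤ Y → lX + lT ≤ ℓ1 q ∧ g * (lX + lT) ≤ ℓ2 q ∧
      ℓ1 q + ℓ2 q ≤ Lm ∧ ℓ1 q ≤ Lm ∧ ℓ2 q ≤ Lm ∧ |ℓ2 q - g * ℓ1 q| ≤ Cl := by
    intro q hq1 hq2
    have hqX : (X : ℝ) ≤ q := by exact_mod_cast hq1.le
    have hqY : (q : ℝ) ≤ Y := by exact_mod_cast hq2
    have hq0 : (0 : ℝ) < q := by linarith
    obtain ⟨lq, hlq⟩ : ∃ lq, lq = Real.log (q : ℝ) := ⟨_, rfl⟩
    have hlq1 : lX ≤ lq := by rw [hlX, hlq]; exact Real.log_le_log hXpos hqX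
    have hlq2 : lq ≤ (1 + η) * lX := by
      have := Real.log_le_log hq0 (hqY.trans hYX)
      rwa [Real.log_rpow hXpos, ← hlq, ← hlX] at this
    have e1 : ℓ1 q = lm + lq + lT := by
      rw [hℓ1]
      simp only
      rw [hTH, one_mul, one_mul, one_mul, Real.log_mul (by positivity) hTpos.ne',
        Real.log_mul (by positivity) hq0.ne', ← hlm, ← hlq, ← hlT]
    have hTαpos : 0 < g * (T + α) := lt_of_lt_of_le hTpos hTα1
    have e2 : ℓ2 q = g * (Real.log (m₂ : ℝ) + lq + Real.log (g * (T + α))) := by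
      rw [hℓ2]
      simp only
      rw [hTH2, one_mul, Real.log_mul (by positivity) hTαpos.ne',
        Real.log_mul (by positivity) hq0.ne', ← hlq]
    have b1 : lT ≤ Real.log (g * (T + α)) := by
      rw [hlT]; exact Real.log_le_log hTpos hTα1
    have b0 : 0 ≤ Real.log (m₂ : ℝ) := Real.log_nonneg hm2r
    have b2 : Real.log (m₂ : ℝ) + Real.log (g * (T + α)) ≤ lr + lT := by
      rw [← Real.log_mul (by positivity) hTαpos.ne', hlr, hlT,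
        ← Real.log_mul (by positivity) hTpos.ne']
      refine Real.log_le_log (by positivity) ?_
      calc (m₂ : ℝ) * (g * (T + α)) ≤ m₂ * (g * (1 + |α|) * T) :=
            mul_le_mul_of_nonneg_left hTα2 (by positivity)
        _ = _ := by ring
    obtain ⟨y, hy⟩ : ∃ y, y = Real.log (m₂ : ℝ) + Real.log (g * (T + α)) := ⟨_, rfl⟩
    have e2' : ℓ2 q = g * (lq + y) := by rw [e2, hy]; ring
    have b3 : lT ≤ y := by rw [hy]; linarith
    rw [← hy] at b2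
    have hz2' : Cp ≤ (1 + g) * η1 * lX := by
      have h1 : Cp / ((1 + g) * η1) ≤ lX := by linarith
      have h2 := (div_le_iff₀ (by positivity)).1 h1
      rw [mul_comm ((1 + g) * η1) lX]
      exact h2
    have c1 : lX + lT ≤ ℓ1 q := by rw [e1]; linarith
    have c2' : g * (lX + lT) ≤ ℓ2 q := by
      rw [e2']; exact mul_le_mul_of_nonneg_left (by linarith) hg0.le
    have hp1 : 0 ≤ lX + lT := by linarith
    have c3 : ℓ1 q + ℓ2 q ≤ Lm := by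
      rw [e1, e2', hLm, hLdef]
      rw [hCp] at hz2'
      exact nl6 hg hlq2 b2 hz2' hηη1 hlX0.le hlT0 hη1.le
    have hℓ1p : 0 ≤ ℓ1 q := hp1.trans c1
    have hℓ2p : 0 ≤ ℓ2 q := le_trans (by positivity) c2'
    refine ⟨c1, c2', c3, by linarith, by linarith, ?_⟩
    rw [e1, e2']
    have e3 : g * (lq + y) - g * (lm + lq + lT) = g * ((y - lT) - lm) := by ring
    rw [e3, abs_mul, abs_of_pos hg0, hCl]
    refine mul_le_mul_of_nonneg_left ?_ hg0.le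
    rw [abs_le]
    constructor <;> linarith
  -- the systems
  have hsysq : ∀ (q : ℕ) (χ : DirichletCharacter ℂ q), X < q → q ≤ Y → Nat.Coprime q m →
      χ.IsPrimitive →
      ZSys (G1 ψ₁ T H q χ) H L (ℓ1 q) Lm C1 (1 / 1) (PQ 1 (fun n => (χ (n : ZMod q) *
        ψ₁ (n : ZMod m₁) * (ArithmeticFunction.vonMangoldt n : ℂ)) * tw (1 * (T - H)) n)) ∧
      ZSys (G2 ψ₂ g α T H q χ) H L (ℓ2 q) Lm C2 (1 / g) (PQ g (fun n => (χ (n : ZMod q) *
        ψ₂ (n : ZMod m₂) * (ArithmeticFunction.vonMangoldt n : ℂ)) * tw (g * (T - H + α)) n)) ∧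
      Reg (G1 ψ₁ T H q χ) (H - 3 * L) ∧ Reg (G2 ψ₂ g α T H q χ) (H - 3 * L) ∧
      W388.CoefE (A1 + D) (fun n => χ (n : ZMod q) *
        ψ₁ (n : ZMod m₁) * (ArithmeticFunction.vonMangoldt n : ℂ)) ∧
      W388.CoefE (A2 + D) (fun n => χ (n : ZMod q) *
        ψ₂ (n : ZMod m₂) * (ArithmeticFunction.vonMangoldt n : ℂ)) := by
    intro q χ hq1 hq2 hqc hχ
    obtain ⟨s1, s2, s3, s4, s5, s6⟩ := hsize q hq1 hq2
    have hq1n : 1 ≤ q := by omega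
    have hqr : (1 : ℝ) ≤ q := by exact_mod_cast hq1n
    rw [hm] at hqc
    have hqc1 : Nat.Coprime q m₁ := Nat.Coprime.coprime_mul_right_right hqc
    have hqc2 : Nat.Coprime q m₂ := Nat.Coprime.coprime_mul_left_right hqc
    have hQ1 : 1 ≤ (m₁ : ℝ) * (q : ℝ) := one_le_mul_of_one_le_of_one_le hm1r hqr
    have hQ2 : 1 ≤ (m₂ : ℝ) * (q : ℝ) := one_le_mul_of_one_le_of_one_le hm2r hqr
    have hE1 := goodE_of_U hA1 hQ1 (hgd1 q χ hq1n hqc1 hχ)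
    have hE2 := goodE_of_U hA2 hQ2 (hgd2 q χ hq1n hqc2 hχ)
    rw [← hD] at hE1 hE2
    rw [hℓ1] at s4
    rw [hℓ2] at s5
    have k1 := hz1 _ _ _ hQ1 hE1 (T - H) H L Lm hα0 (by linarith) h8L (by
      rw [hTH, one_mul]
      exact hTexp.trans (Real.exp_le_exp.2 (nl5 hL8))) s4
    have k2 := hz2 _ _ _ hQ2 hE2 (T - H + α) H L Lm hα2 (by linarith) h8L (by
      rw [hTH2]; exact hexpg) s5
    refine ⟨?_, ?_, ?_, ?_, hE1.coef, hE2.coef⟩
    · rw [hℓ1]; exact k1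
    · rw [hℓ2]; exact k2
    · exact reg_dil (by linarith) hE1 one_pos _ _ (by linarith)
    · exact reg_dil (by linarith) hE2 hg0 _ _ (by linarith)
  have hsub : ∀ {F : ℂ → ℂ}, (zset F (H - 3 * L) (2 * H + 3 * L)).Finite →
      (zset F H (2 * H)).Finite := fun h =>
    h.subset (zset_sub (by linarith) (by linarith))
  refine ⟨by linarith, ?_, ?_⟩
  · intro q hq1 hq2 hqc χ hχ
    obtain ⟨k1, k2, r1, r2, -, -⟩ := hsysq q χ hq1 hq2 hqc hχ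
    obtain ⟨s1, s2, s3, s4, s5, s6⟩ := hsize q hq1 hq2
    have n1 := abs_le.1 (N_both k1 hC1 hL8 hLH (by linarith) hLm3)
    have n2 := abs_le.1 (N_both k2 hC2 hL8 hLH (by linarith) hLm3)
    obtain ⟨N1, hN1⟩ : ∃ N1 : ℝ, N1 = (NN (G1 ψ₁ T H q χ) H (2 * H) : ℝ) := ⟨_, rfl⟩
    obtain ⟨N2, hN2⟩ : ∃ N2 : ℝ, N2 = (NN (G2 ψ₂ g α T H q χ) H (2 * H) : ℝ) := ⟨_, rfl⟩
    rw [← hN1] at n1 ⊢
    rw [← hN2] at n2 ⊢
    obtain ⟨t, ht⟩ : ∃ t, t = H / (2 * Real.pi) := ⟨_, rfl⟩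
    have ht0 : 0 < t := by rw [ht]; positivity
    have htH : t ≤ H := by
      rw [ht]; exact div_le_self hHpos.le (by linarith)
    rw [← ht] at n1 n2
    have hlow : H * (1 + C4 / ε) ≤ N1 := by
      have h1 : 2 * Real.pi * (50 * C1 + 1 + C4 / ε) ≤ lX + lT := by
        have h2 : 2 * Real.pi * (1 + g) * (50 * C1 + 1 + C4 / ε) ≤ L := by linarith
        rw [hLdef] at h2
        have h3 : 2 * Real.pi * (1 + g) * (50 * C1 + 1 + C4 / ε) =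
          (1 + g) * (2 * Real.pi * (50 * C1 + 1 + C4 / ε)) := by ring
        rw [h3] at h2
        exact le_of_mul_le_mul_left h2 hgp
      have h4 : t * (2 * Real.pi * (50 * C1 + 1 + C4 / ε)) ≤ t * ℓ1 q :=
        mul_le_mul_of_nonneg_left (h1.trans s1) ht0.le
      have h5 : t * (2 * Real.pi * (50 * C1 + 1 + C4 / ε)) = H * (50 * C1 + 1 + C4 / ε) := by
        rw [ht]; field_simp
      rw [h5] at h4
      linarith [n1.1]
    have hN1H : H ≤ N1 := by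
      have : 0 ≤ H * (C4 / ε) := by positivity
      linarith
    refine ⟨hsub k1.fin, hsub k2.fin, r1.mono (by linarith), r2.mono (by linarith),
      by linarith, ?_⟩
    have h6 : C4 * H ≤ ε * N1 := by
      have h7 : H * (C4 / ε) ≤ N1 := by linarith
      have h8 := mul_le_mul_of_nonneg_left h7 hε.le
      have h9 : ε * (H * (C4 / ε)) = C4 * H := by field_simp
      linarith
    have h10 : |N2 - g * N1| ≤ C4 * H := by
      have e1 : N2 - g * N1 = (N2 - t * ℓ2 q) - g * (N1 - t * ℓ1 q) + t * (ℓ2 q - g * ℓ1 q) := by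
        ring
      have q1 : |N2 - t * ℓ2 q| ≤ 50 * C2 * H := abs_le.2 n2
      have q2 : |g * (N1 - t * ℓ1 q)| ≤ g * (50 * C1 * H) := by
        rw [abs_mul, abs_of_pos hg0]
        exact mul_le_mul_of_nonneg_left (abs_le.2 n1) hg0.le
      have q3 : |t * (ℓ2 q - g * ℓ1 q)| ≤ H * Cl := by
        rw [abs_mul, abs_of_pos ht0]
        exact mul_le_mul htH s6 (abs_nonneg _) hHpos.le
      have q4 : |(N2 - t * ℓ2 q) - g * (N1 - t * ℓ1 q)| ≤ 50 * C2 * H + g * (50 * C1 * H) :=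
        (abs_sub _ _).trans (add_le_add q1 q2)
      rw [e1]
      refine (abs_add_le _ _).trans ((add_le_add q4 q3).trans (le_of_eq ?_))
      rw [hC4]; ring
    exact h10.trans h6
  · -- the family
    obtain ⟨Ff, hFf⟩ : ∃ Ff : IX → ℂ → ℂ, Ff = fun p =>
      (fun s => G1 ψ₁ T H p.1 p.2 s * G2 ψ₂ g α T H p.1 p.2 s) := ⟨_, rfl⟩
    obtain ⟨Pf, hPf⟩ : ∃ Pf : IX → ℝ → ℝ → ℂ, Pf = fun p => (fun u m =>
      PQ 1 (fun n => (p.2 (n : ZMod p.1) *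
        ψ₁ (n : ZMod m₁) * (ArithmeticFunction.vonMangoldt n : ℂ)) * tw (1 * (T - H)) n) u m +
      PQ g (fun n => (p.2 (n : ZMod p.1) *
        ψ₂ (n : ZMod m₂) * (ArithmeticFunction.vonMangoldt n : ℂ)) * tw (g * (T - H + α)) n) u m) :=
      ⟨_, rfl⟩
    have hsys : ∀ p ∈ primSetM (rad m) X Y, 0 ≤ 1 / (p.1 : ℝ) ^ 2 ∧ L ≤ ℓ1 p.1 + ℓ2 p.1 ∧
        ZSys (Ff p) H L (ℓ1 p.1 + ℓ2 p.1) ((1 + 2 * η1) * L) (C1 + C2) (1 / g) (Pf p) := by
      intro p hp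
      obtain ⟨b1, b2, b3, b4⟩ := (mem_primSetM (rad m) X Y p).mp hp
      obtain ⟨s1, s2, s3, s4, s5, s6⟩ := hsize p.1 b1 b2
      obtain ⟨k1, k2, r1, r2, -, -⟩ := hsysq p.1 p.2 b1 b2 ((coprime_rad hm0 p.1).mp b3) b4
      refine ⟨by positivity, ?_, ?_⟩
      · rw [hLdef]; linarith
      · rw [← hLm, hFf, hPf]
        exact zsys_mul (by linarith) hHpos.le k1 k2 hC1.le hC2.le (by rw [div_one]; exact h1g)
          le_rfl r1 r2 s3
    have hWe : ∑ p ∈ primSetM (rad m) X Y, (1 / (p.1 : ℝ) ^ 2) = WM (rad m) X Y := by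
      unfold H385.WM
      rw [primFamM_eq]
      exact Finset.sum_congr rfl fun p _ => by rw [mul_one]
    have hW0 : 0 ≤ WM (rad m) X Y := H385.primFamM_nonneg _ _ _ _ (fun _ _ => zero_le_one)
    have hHX' : H ≤ X := by
      refine hHX.trans ?_
      calc (X : ℝ) ^ η ≤ (X : ℝ) ^ (1 : ℝ) := Real.rpow_le_rpow_of_exponent_le (by linarith) hη1'
        _ = X := Real.rpow_one _
    have hms' : ∀ u : ℝ, 0 ≤ u → u ≤ (1 - s) * (γ / 2) * L →
        ∫ t : ℝ, ∑ p ∈ primSetM (rad m) X Y, (1 / (p.1 : ℝ) ^ 2) * ‖PG (Pf p) H u t‖ ^ 2 ≤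
          (1 + s) * (∑ p ∈ primSetM (rad m) X Y, (1 / (p.1 : ℝ) ^ 2)) * (H / (2 * Real.pi)) *
            (inner 1 u + inner g u) +
            CM * (∑ p ∈ primSetM (rad m) X Y, (1 / (p.1 : ℝ) ^ 2)) * H := by
      intro u hu hu2
      have hu3 := hu2.trans (num_a hs hs1 hη0 hηs hτ hg hlX0 hlTX hγ hLdef)
      have h1 := hms X Y H u (fun n => ψ₁ (n : ZMod m₁) * tw (1 * (T - H)) n)
        (fun n => ψ₂ (n : ZMod m₂) * tw (g * (T - H + α)) n) (by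
        intro n
        rw [norm_mul, tw_norm, mul_one]; exact DirichletCharacter.norm_le_one _ _) (by
        intro n
        rw [norm_mul, tw_norm, mul_one]; exact DirichletCharacter.norm_le_one _ _)
        hX1' hKX (by rw [← hlX]; exact hH64) hHX' hu (by rw [← hlX]; exact hu3)
      rw [hWe]
      have hI : 0 ≤ inner 1 u + inner g u := hW.nonneg u
      have h2 : (1 + s / 2) * WM (rad m) X Y * (H / (2 * Real.pi)) * (inner 1 u + inner g u) ≤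
          (1 + s) * WM (rad m) X Y * (H / (2 * Real.pi)) * (inner 1 u + inner g u) := by
        have h3 : 0 ≤ WM (rad m) X Y * (H / (2 * Real.pi)) * (inner 1 u + inner g u) :=
          mul_nonneg (mul_nonneg hW0 (by positivity)) hI
        exact nl9 hs h3
      refine le_trans (le_of_eq ?_) (h1.trans (add_le_add h2 le_rfl))
      refine integral_congr_ae (Eventually.of_forall fun t => ?_)
      simp only
      rw [primFamM_eq]
      refine Finset.sum_congr rfl fun p hp => ?_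
      obtain ⟨b1, b2, b3, b4⟩ := (mem_primSetM (rad m) X Y p).mp hp
      obtain ⟨-, -, -, -, co1, co2⟩ := hsysq p.1 p.2 b1 b2 ((coprime_rad hm0 p.1).mp b3) b4
      rw [hPf]
      simp only
      have hcc1 := Pool.Agent.V8H24.ZS.CoefE_tw co1 (1 * (T - H))
      have hcc2 := Pool.Agent.V8H24.ZS.CoefE_tw co2 (g * (T - H + α))
      rw [PG_two hg.le hcc1 hcc2 H u t]
      have ef1 : (fun n : ℕ => (p.2 (n : ZMod p.1) * ψ₁ (n : ZMod m₁) *
          (ArithmeticFunction.vonMangoldt n : ℂ)) * tw (1 * (T - H)) n) =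
          (fun n : ℕ => p.2 (n : ZMod p.1) * (ψ₁ (n : ZMod m₁) * tw (1 * (T - H)) n) *
            (ArithmeticFunction.vonMangoldt n : ℂ)) := by
        funext n; ring
      have ef2 : (fun n : ℕ => (p.2 (n : ZMod p.1) * ψ₂ (n : ZMod m₂) *
          (ArithmeticFunction.vonMangoldt n : ℂ)) * tw (g * (T - H + α)) n) =
          (fun n : ℕ => p.2 (n : ZMod p.1) * (ψ₂ (n : ZMod m₂) * tw (g * (T - H + α)) n) *
            (ArithmeticFunction.vonMangoldt n : ℂ)) := by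
        funext n; ring
      rw [ef1, ef2]
    obtain ⟨-, r2, r3⟩ := hcore' (primSetM (rad m) X Y) (fun p => 1 / (p.1 : ℝ) ^ 2)
      (fun p => ℓ1 p.1 + ℓ2 p.1) Ff Pf H L hL0L hLH (hHT'.trans hTexp) hsys hms'
    rw [hFf] at r2 r3
    refine ⟨?_, ?_⟩
    · rw [← primFamM_rad hm0, ← primFamM_rad hm0, primFamM_eq, primFamM_eq]
      exact r2
    · rw [← primFamM_rad hm0, ← primFamM_rad hm0, primFamM_eq, primFamM_eq]
      exact r3

end Pool.Agent.V8H24.RT
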