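import Pool.Agent.V8H24.RT.Core

/-! # Common zeros of `L(s, χ ψ₁)` and the dilated `L(s, χ ψ₂)` -/

set_option autoImplicit false
set_option maxHeartbeats 4000000

open Complex Filter Topology Set MeasureTheory
open scoped BigOperators ComplexConjugate

namespace Pool.Agent.V8H24.RT

open H370 (zset mult NN Nd Ns)
open H385 (primFamM primFamM_eq primSetM mem_primSetM IX WM cM cM_pos prim_mass_M)
open W388 (rad rad_squarefree coprime_rad primFamM_rad)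
open Pool.Agent.V8H24.ZS (dil dm)
open Pool.Agent.V8H24.LI (LT)
open Pool.Agent.R321.RG (fam_mono fam_congr fam_add)
open Pool.Agent.N880.HP (c2 c2_main)

/-- vertical translation -/
noncomputable def tr (β : ℝ) (F : ℂ → ℂ) : ℂ → ℂ := fun s => F (s + I * β)

lemma tr_re (β : ℝ) (s : ℂ) : (s + I * β).re = s.re := by simp

lemma tr_im (β : ℝ) (s : ℂ) : (s + I * β).im = s.im + β := by simp

lemma mem_tr (β : ℝ) (F : ℂ → ℂ) (V1 V2 : ℝ) (s : ℂ) :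
    s ∈ zset (tr β F) V1 V2 ↔ s + I * β ∈ zset F (V1 + β) (V2 + β) := by
  constructor
  · rintro ⟨h1, h2, h3, h4, h5⟩
    exact ⟨by rw [tr_re]; exact h1, by rw [tr_re]; exact h2, by rw [tr_im]; linarith,
      by rw [tr_im]; linarith, h5⟩
  · rintro ⟨h1, h2, h3, h4, h5⟩
    rw [tr_re] at h1 h2
    rw [tr_im] at h3 h4
    exact ⟨h1, h2, by linarith, by linarith, h5⟩

lemma tr_inj (β : ℝ) : Function.Injective (fun s : ℂ => s + I * β) := fun _ _ h =>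
  add_right_cancel h

lemma mult_tr (β : ℝ) (F : ℂ → ℂ) (s : ℂ) : mult (tr β F) s = mult F (s + I * β) := by
  have h1 : AnalyticAt ℂ (fun s : ℂ => s + I * β) s := by fun_prop
  have hd : deriv (fun s : ℂ => s + I * β) s ≠ 0 := by simp
  have h := analyticOrderAt_comp_of_deriv_ne_zero (f := F) h1 hd
  unfold H370.mult analyticOrderNatAt
  have h2 : tr β F = F ∘ (fun s : ℂ => s + I * β) := rfl
  rw [h2, h]

lemma zset_tr (β : ℝ) (F : ℂ → ℂ) (V1 V2 : ℝ) :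
    zset F (V1 + β) (V2 + β) = (fun s : ℂ => s + I * β) '' zset (tr β F) V1 V2 := by
  ext w
  constructor
  · intro hw
    refine ⟨w - I * β, (mem_tr β F V1 V2 _).2 ?_, ?_⟩
    · rw [sub_add_cancel]; exact hw
    · exact sub_add_cancel _ _
  · rintro ⟨s, hs, rfl⟩
    exact (mem_tr β F V1 V2 s).1 hs

lemma fin_tr {β : ℝ} {F : ℂ → ℂ} {V1 V2 : ℝ} (h : (zset (tr β F) V1 V2).Finite) :
    (zset F (V1 + β) (V2 + β)).Finite := by
  rw [zset_tr]; exact h.image _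

lemma NN_tr (β : ℝ) (F : ℂ → ℂ) (V1 V2 : ℝ) :
    NN (tr β F) V1 V2 = NN F (V1 + β) (V2 + β) := by
  unfold H370.NN
  rw [zset_tr, finsum_mem_image ((tr_inj β).injOn)]
  exact finsum_congr fun s => finsum_congr fun _ => mult_tr β F s

lemma On_tr (β : ℝ) (F G : ℂ → ℂ) (V1 V2 : ℝ) :
    On (tr β F) (tr β G) V1 V2 = On F G (V1 + β) (V2 + β) := by
  unfold On
  rw [← Set.ncard_image_of_injective {s : ℂ | s ∈ zset (tr β F) V1 V2 ∧ s.re = 1 / 2 ∧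
    mult (tr β F) s = 1 ∧ tr β G s ≠ 0} (tr_inj β)]
  congr 1
  ext w
  constructor
  · rintro ⟨s, ⟨h1, h2, h3, h4⟩, rfl⟩
    refine ⟨(mem_tr β F V1 V2 s).1 h1, ?_, ?_, h4⟩
    · show (s + I * β).re = 1 / 2
      rw [tr_re]; exact h2
    · rw [← mult_tr]; exact h3
  · rintro ⟨h1, h2, h3, h4⟩
    refine ⟨w - I * β, ⟨(mem_tr β F V1 V2 _).2 ?_, ?_, ?_, ?_⟩, sub_add_cancel _ _⟩
    · rw [sub_add_cancel]; exact h1
    · have := tr_re β (w - I * β)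
      rw [sub_add_cancel] at this
      rw [← this]; exact h2
    · rw [mult_tr, sub_add_cancel]; exact h3
    · show G (w - I * β + I * β) ≠ 0
      rw [sub_add_cancel]; exact h4

lemma Cm_tr (β : ℝ) (F G : ℂ → ℂ) (V1 V2 : ℝ) :
    Cm (tr β F) (tr β G) V1 V2 = Cm F G (V1 + β) (V2 + β) := by
  unfold Cm
  have e : zset F (V1 + β) (V2 + β) ∩ zset G (V1 + β) (V2 + β) =
      (fun s : ℂ => s + I * β) '' (zset (tr β F) V1 V2 ∩ zset (tr β G) V1 V2) := by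
    rw [Set.image_inter (tr_inj β), ← zset_tr, ← zset_tr]
  rw [e, finsum_mem_image ((tr_inj β).injOn)]
  exact finsum_congr fun s => finsum_congr fun _ => by rw [mult_tr, mult_tr]

lemma G1_eq {m : ℕ} (ψ : DirichletCharacter ℂ m) (T H : ℝ) (q : ℕ) (χ : DirichletCharacter ℂ q) :
    G1 ψ T H q χ = tr (T - H) (LT ψ q χ) := by
  funext s
  unfold G1 dil dm tr
  congr 1
  push_cast
  ring

lemma G2_eq {m : ℕ} (ψ : DirichletCharacter ℂ m) (g α T H : ℝ) (q : ℕ)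
    (χ : DirichletCharacter ℂ q) :
    G2 ψ g α T H q χ = tr (T - H) (dil g α (LT ψ q χ)) := by
  funext s
  unfold G2 tr dil dm
  congr 1
  push_cast
  ring

lemma lin_c {c e ε g F1 FN FC : ℝ} (hε : 0 < ε) (hg : 1 < g)
    (he : e = min 1 (ε / (2 + g + |c - 1|))) (h1 : 0 < F1)
    (h2 : FN ≤ (1 + g + e) * F1) (h3 : FC ≤ (c - 1 + e) / 2 * FN) (h4 : 0 ≤ FC) (h5 : 0 < FN) :
    FC ≤ ((c - 1) * (1 + g) / 2 + ε) * F1 := by
  have hd : 0 < 2 + g + |c - 1| := by positivity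
  have he0 : 0 < e := by rw [he]; exact lt_min one_pos (by positivity)
  have he1 : e ≤ 1 := he ▸ min_le_left _ _
  have he2 : e * (2 + g + |c - 1|) ≤ ε := by
    rw [← le_div_iff₀ hd, he]; exact min_le_right _ _
  have hk : 0 ≤ c - 1 + e := by
    by_contra h
    push Not at h
    have : (c - 1 + e) / 2 * FN < 0 := mul_neg_of_neg_of_pos (by linarith) h5
    linarith
  have h6 : FC ≤ (c - 1 + e) / 2 * ((1 + g + e) * F1) :=
    h3.trans (mul_le_mul_of_nonneg_left h2 (by linarith))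
  have h7 : (c - 1 + e) / 2 * (1 + g + e) ≤ (c - 1) * (1 + g) / 2 + ε := by
    have h8 : (c - 1) * e ≤ |c - 1| * e := mul_le_mul_of_nonneg_right (le_abs_self _) he0.le
    have h9 : e * e ≤ e * 1 := mul_le_mul_of_nonneg_left he1 he0.le
    have e1 : (c - 1 + e) / 2 * (1 + g + e) = (c - 1) * (1 + g) / 2 +
      ((c - 1) * e + e * (1 + g) + e * e) / 2 := by ring
    have e2 : e * (2 + g + |c - 1|) = |c - 1| * e + e * (1 + g) + e * 1 := by ring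
    rw [e1]
    rw [e2] at he2
    linarith
  have h10 := mul_le_mul_of_nonneg_right h7 h1.le
  linarith

/-- **Common zeros.** -/
theorem fin {m₁ m₂ : ℕ} (hm₁ : m₁ ≠ 0) (hm₂ : m₂ ≠ 0) (ψ₁ : DirichletCharacter ℂ m₁)
    (ψ₂ : DirichletCharacter ℂ m₂) (hψ₁ : ψ₁.IsPrimitive) (hψ₂ : ψ₂.IsPrimitive) (g α : ℝ)
    (hg : 1 < g) (τ ε : ℝ) (hτ : 0 ≤ τ) (hε : 0 < ε) :
    ∃ K η X0 : ℝ, 1 ≤ K ∧ 0 < η ∧ 1 ≤ X0 ∧
    ∀ (X Y : ℕ) (T H : ℝ), X0 ≤ X → K * X ≤ Y → (Y : ℝ) ≤ (X : ℝ) ^ (1 + η) →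
      ((1 + g) * (2 + τ) * Real.log X) ^ 2 ≤ H → H ≤ (X : ℝ) ^ η → H + |α| ≤ T →
      T ≤ (X : ℝ) ^ (τ + η) →
      0 < primFamM (m₁ * m₂) X Y (fun q χ => (NN (LT ψ₁ q χ) T (T + H) : ℝ)) ∧
      (∀ q : ℕ, X < q → q ≤ Y → Nat.Coprime q (m₁ * m₂) → ∀ χ : DirichletCharacter ℂ q,
        χ.IsPrimitive → (zset (LT ψ₁ q χ) T (T + H)).Finite ∧
        (zset (dil g α (LT ψ₂ q χ)) T (T + H)).Finite ∧
        |(NN (dil g α (LT ψ₂ q χ)) T (T + H) : ℝ) - g * (NN (LT ψ₁ q χ) T (T + H) : ℝ)| ≤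
          ε * (NN (LT ψ₁ q χ) T (T + H) : ℝ)) ∧
      primFamM (m₁ * m₂) X Y (fun q χ =>
          (Cm (LT ψ₁ q χ) (dil g α (LT ψ₂ q χ)) T (T + H) : ℝ)) ≤
        ((c2 (4 / ((1 + τ) * (1 + g))) - 1) * (1 + g) / 2 + ε) *
        primFamM (m₁ * m₂) X Y (fun q χ => (NN (LT ψ₁ q χ) T (T + H) : ℝ)) ∧
      (2 - c2 (4 / ((1 + τ) * (1 + g))) - ε) * primFamM (m₁ * m₂) X Y (fun q χ =>
          ((NN (LT ψ₁ q χ) T (T + H) + NN (dil g α (LT ψ₂ q χ)) T (T + H) : ℕ) : ℝ)) ≤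
        primFamM (m₁ * m₂) X Y (fun q χ =>
          ((On (LT ψ₁ q χ) (dil g α (LT ψ₂ q χ)) T (T + H) +
            On (dil g α (LT ψ₂ q χ)) (LT ψ₁ q χ) T (T + H) : ℕ) : ℝ)) := by
  have hg0 : 0 < g := by linarith
  have hm0 : m₁ * m₂ ≠ 0 := Nat.mul_ne_zero hm₁ hm₂
  obtain ⟨c, hc⟩ : ∃ c, c = c2 (4 / ((1 + τ) * (1 + g))) := ⟨_, rfl⟩
  obtain ⟨e, he⟩ : ∃ e, e = min 1 (ε / (2 + g + |c - 1|)) := ⟨_, rfl⟩
  have hd : 0 < 2 + g + |c - 1| := by positivity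
  have he0 : 0 < e := by rw [he]; exact lt_min one_pos (by positivity)
  have heε : e ≤ ε := by
    have h1 : e ≤ ε / (2 + g + |c - 1|) := he ▸ min_le_right _ _
    refine h1.trans (div_le_self hε.le ?_)
    have := abs_nonneg (c - 1)
    linarith
  obtain ⟨K, η, X0, hK, hη, hX0, h⟩ := core hm₁ hm₂ ψ₁ ψ₂ hψ₁ hψ₂ g α hg τ e hτ he0
  rw [← hc] at h ⊢
  obtain ⟨m, hm⟩ : ∃ m, m = m₁ * m₂ := ⟨_, rfl⟩
  rw [← hm] at hm0 h ⊢
  have hsq := rad_squarefree m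
  obtain ⟨C4, hC4, hmass⟩ := prim_mass_M (rad m) hsq
  have hc0 := cM_pos (rad m) hsq
  refine ⟨max K (Real.exp ((C4 + 1) / cM (rad m))), η, X0, le_max_of_le_left hK, hη, hX0, ?_⟩
  intro X Y T H hX hKX hY hLH hHX hHT hTX
  have hX1r : (1 : ℝ) ≤ X := hX0.trans hX
  have hXpos : (0 : ℝ) < X := by linarith
  have hX1n : 1 ≤ X := by exact_mod_cast hX1r
  have hKX1 : K * X ≤ Y := (mul_le_mul_of_nonneg_right (le_max_left _ _) hXpos.le).trans hKX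
  have hKX2 : Real.exp ((C4 + 1) / cM (rad m)) * X ≤ Y :=
    (mul_le_mul_of_nonneg_right (le_max_right _ _) hXpos.le).trans hKX
  have hXYr : (X : ℝ) ≤ Y := by
    calc (X : ℝ) = 1 * X := (one_mul _).symm
      _ ≤ K * X := mul_le_mul_of_nonneg_right hK hXpos.le
      _ ≤ Y := hKX1
  have hXY : X ≤ Y := by exact_mod_cast hXYr
  obtain ⟨hH1, bp, b1, b2⟩ := h X Y T H hX hKX1 hY hLH hHX hHT hTX
  have eH : H + (T - H) = T := by ring
  have eH2 : 2 * H + (T - H) = T + H := by ring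
  -- translation
  have t1 : ∀ (q : ℕ) (χ : DirichletCharacter ℂ q), NN (G1 ψ₁ T H q χ) H (2 * H) =
      NN (LT ψ₁ q χ) T (T + H) := by
    intro q χ
    rw [G1_eq, NN_tr, eH, eH2]
  have t2 : ∀ (q : ℕ) (χ : DirichletCharacter ℂ q), NN (G2 ψ₂ g α T H q χ) H (2 * H) =
      NN (dil g α (LT ψ₂ q χ)) T (T + H) := by
    intro q χ
    rw [G2_eq, NN_tr, eH, eH2]
  have t3 : ∀ (q : ℕ) (χ : DirichletCharacter ℂ q),
      On (G1 ψ₁ T H q χ) (G2 ψ₂ g α T H q χ) H (2 * H) =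
      On (LT ψ₁ q χ) (dil g α (LT ψ₂ q χ)) T (T + H) := by
    intro q χ
    rw [G1_eq, G2_eq, On_tr, eH, eH2]
  have t4 : ∀ (q : ℕ) (χ : DirichletCharacter ℂ q),
      On (G2 ψ₂ g α T H q χ) (G1 ψ₁ T H q χ) H (2 * H) =
      On (dil g α (LT ψ₂ q χ)) (LT ψ₁ q χ) T (T + H) := by
    intro q χ
    rw [G1_eq, G2_eq, On_tr, eH, eH2]
  have t5 : ∀ (q : ℕ) (χ : DirichletCharacter ℂ q),
      Cm (G1 ψ₁ T H q χ) (G2 ψ₂ g α T H q χ) H (2 * H) =
      Cm (LT ψ₁ q χ) (dil g α (LT ψ₂ q χ)) T (T + H) := by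
    intro q χ
    rw [G1_eq, G2_eq, Cm_tr, eH, eH2]
  have hcnt : ∀ q : ℕ, X < q → q ≤ Y → Nat.Coprime q m → ∀ χ : DirichletCharacter ℂ q,
      χ.IsPrimitive → _ := fun q hq hq2 hqc χ hχ => by
    obtain ⟨f1, f2, r1, r2, -, -⟩ := bp q hq hq2 hqc χ hχ
    exact counts r1 r2 le_rfl f1 f2
  have hNN : primFamM m X Y (fun q χ =>
        (NN (fun s => G1 ψ₁ T H q χ s * G2 ψ₂ g α T H q χ s) H (2 * H) : ℝ)) =
      primFamM m X Y (fun q χ => ((NN (LT ψ₁ q χ) T (T + H) +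
        NN (dil g α (LT ψ₂ q χ)) T (T + H) : ℕ) : ℝ)) := by
    refine fam_congr m X Y _ _ fun q hq hq2 hqc χ hχ => ?_
    have := (hcnt q hq hq2 hqc χ hχ).1
    rw [t1, t2] at this
    rw [this]
  have hNs : primFamM m X Y (fun q χ =>
        (Ns (fun s => G1 ψ₁ T H q χ s * G2 ψ₂ g α T H q χ s) H (2 * H) : ℝ)) ≤
      primFamM m X Y (fun q χ =>
          ((On (LT ψ₁ q χ) (dil g α (LT ψ₂ q χ)) T (T + H) +
            On (dil g α (LT ψ₂ q χ)) (LT ψ₁ q χ) T (T + H) : ℕ) : ℝ)) := by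
    refine fam_mono m X Y _ _ fun q hq hq2 hqc χ hχ => ?_
    have := (hcnt q hq hq2 hqc χ hχ).2.1
    rw [t3, t4] at this
    exact_mod_cast this
  have hCm : primFamM m X Y (fun q χ =>
        (Cm (LT ψ₁ q χ) (dil g α (LT ψ₂ q χ)) T (T + H) : ℝ)) +
      primFamM m X Y (fun q χ =>
        (Nd (fun s => G1 ψ₁ T H q χ s * G2 ψ₂ g α T H q χ s) H (2 * H) : ℝ)) ≤
      primFamM m X Y (fun q χ => ((NN (LT ψ₁ q χ) T (T + H) +
        NN (dil g α (LT ψ₂ q χ)) T (T + H) : ℕ) : ℝ)) := by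
    rw [← fam_add]
    refine fam_mono m X Y _ _ fun q hq hq2 hqc χ hχ => ?_
    have := (hcnt q hq hq2 hqc χ hχ).2.2
    rw [t1, t2, t5] at this
    exact_mod_cast this
  have hlin : ∀ (a b : ℝ) (f g : (q : ℕ) → DirichletCharacter ℂ q → ℝ),
      primFamM m X Y (fun q χ => a * f q χ - b * g q χ) =
        a * primFamM m X Y f - b * primFamM m X Y g := fun a b f g =>
    H385.primFamM_lin m X Y a b f g
  have hmul : ∀ (a : ℝ) (f : (q : ℕ) → DirichletCharacter ℂ q → ℝ),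
      primFamM m X Y (fun q χ => a * f q χ) = a * primFamM m X Y f := by
    intro a f
    have h1 := hlin a 0 f f
    simp only [zero_mul, sub_zero] at h1
    exact h1
  have hW1 : 1 ≤ primFamM m X Y (fun _ _ => 1) := by
    rw [← primFamM_rad hm0]
    have h1 := (abs_le.mp (hmass X Y hX1n hXY)).1
    have h2 : (C4 + 1) / cM (rad m) ≤ Real.log ((Y : ℝ) / X) := by
      have hYpos : (0 : ℝ) < Y := lt_of_lt_of_le hXpos hXYr
      rw [Real.le_log_iff_exp_le (div_pos hYpos hXpos), le_div_iff₀ hXpos]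
      exact hKX2
    rw [div_le_iff₀ hc0] at h2
    linarith
  have hN1pos : 0 < primFamM m X Y (fun q χ => (NN (LT ψ₁ q χ) T (T + H) : ℝ)) := by
    refine lt_of_lt_of_le (lt_of_lt_of_le one_pos hW1) ?_
    refine fam_mono m X Y _ _ fun q hq hq2 hqc χ hχ => ?_
    have := (bp q hq hq2 hqc χ hχ).2.2.2.2.1
    rw [t1] at this
    exact this
  have hNle : primFamM m X Y (fun q χ => ((NN (LT ψ₁ q χ) T (T + H) +
        NN (dil g α (LT ψ₂ q χ)) T (T + H) : ℕ) : ℝ)) ≤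
      (1 + g + e) * primFamM m X Y (fun q χ => (NN (LT ψ₁ q χ) T (T + H) : ℝ)) := by
    rw [← hmul]
    refine fam_mono m X Y _ _ fun q hq hq2 hqc χ hχ => ?_
    have h1 := (abs_le.1 (bp q hq hq2 hqc χ hχ).2.2.2.2.2).2
    rw [t1, t2] at h1
    push_cast
    linarith
  have hNpos : 0 < primFamM m X Y (fun q χ => ((NN (LT ψ₁ q χ) T (T + H) +
        NN (dil g α (LT ψ₂ q χ)) T (T + H) : ℕ) : ℝ)) := by
    refine lt_of_lt_of_le hN1pos ?_
    refine fam_mono m X Y _ _ fun q hq hq2 hqc χ hχ => ?_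
    push_cast
    have : (0 : ℝ) ≤ (NN (dil g α (LT ψ₂ q χ)) T (T + H) : ℝ) := Nat.cast_nonneg _
    linarith
  have hCm0 : 0 ≤ primFamM m X Y (fun q χ =>
        (Cm (LT ψ₁ q χ) (dil g α (LT ψ₂ q χ)) T (T + H) : ℝ)) :=
    H385.primFamM_nonneg _ _ _ _ (fun _ _ => Nat.cast_nonneg _)
  have f1 := hlin 2 1 (fun q χ =>
      (NN (fun s => G1 ψ₁ T H q χ s * G2 ψ₂ g α T H q χ s) H (2 * H) : ℝ))
    (fun q χ => (Ns (fun s => G1 ψ₁ T H q χ s * G2 ψ₂ g α T H q χ s) H (2 * H) : ℝ))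
  have f2 := hlin 3 2 (fun q χ =>
      (NN (fun s => G1 ψ₁ T H q χ s * G2 ψ₂ g α T H q χ s) H (2 * H) : ℝ))
    (fun q χ => (Nd (fun s => G1 ψ₁ T H q χ s * G2 ψ₂ g α T H q χ s) H (2 * H) : ℝ))
  simp only [one_mul] at f1
  rw [f1] at b1
  rw [f2] at b2
  rw [hNN] at b1 b2
  refine ⟨hN1pos, ?_, ?_, ?_⟩
  · intro q hq hq2 hqc χ hχ
    obtain ⟨f1, f2, r1, r2, n1, n2⟩ := bp q hq hq2 hqc χ hχ
    rw [t1, t2] at n2
    rw [t1] at n1
    rw [G1_eq] at f1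
    rw [G2_eq] at f2
    have f1' := fin_tr f1
    have f2' := fin_tr f2
    rw [eH, eH2] at f1' f2'
    refine ⟨f1', f2', n2.trans (mul_le_mul_of_nonneg_right heε (by linarith))⟩
  · refine lin_c hε hg he hN1pos hNle ?_ hCm0 hNpos
    linarith
  · have hεN := mul_le_mul_of_nonneg_right heε hNpos.le
    linarith

end Pool.Agent.V8H24.RT
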