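import Pool.Agent.V8H24.ZS.Comp

/-! # Products of systems of zeros -/

set_option autoImplicit false
set_option maxHeartbeats 4000000

open Complex Filter Topology Set MeasureTheory
open scoped BigOperators ComplexConjugate

namespace Pool.Agent.V8H24.RT

open H370 (zset mult NN Nd Ns)
open H385 (zz A1)
open Pool.Agent.V8H24.ZS (ZSys)

/-- local regularity above height `V` -/
structure Reg (F : ℂ → ℂ) (V : ℝ) : Prop where
  an : ∀ s : ℂ, V < s.im → AnalyticAt ℂ F s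
  ord : ∀ s : ℂ, V < s.im → analyticOrderAt F s ≠ ⊤

lemma Reg.mono {F : ℂ → ℂ} {V W : ℝ} (h : Reg F V) (hVW : V ≤ W) : Reg F W :=
  ⟨fun s hs => h.an s (hVW.trans_lt hs), fun s hs => h.ord s (hVW.trans_lt hs)⟩

lemma mult_mul {F G : ℂ → ℂ} {V : ℝ} (hF : Reg F V) (hG : Reg G V) {s : ℂ} (hs : V < s.im) :
    mult (fun s => F s * G s) s = mult F s + mult G s := by
  unfold mult
  have e : (fun s => F s * G s) = F * G := rfl
  rw [e, analyticOrderNatAt_mul (hF.an s hs) (hG.an s hs) (hF.ord s hs) (hG.ord s hs)]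

lemma mult_pos_iff {F : ℂ → ℂ} {V : ℝ} (hF : Reg F V) {s : ℂ} (hs : V < s.im) :
    0 < mult F s ↔ F s = 0 := by
  have h1 := (hF.an s hs).analyticOrderAt_ne_zero
  rw [← h1]
  have h2 := hF.ord s hs
  unfold mult analyticOrderNatAt
  constructor
  · intro h h0
    rw [h0] at h
    simp at h
  · intro h
    have h3 : (analyticOrderAt F s).toNat ≠ 0 := by
      intro h4
      rw [ENat.toNat_eq_zero] at h4
      rcases h4 with h4 | h4
      · exact h h4
      · exact h2 h4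
    omega

lemma mult_zero {F : ℂ → ℂ} {V : ℝ} (hF : Reg F V) {s : ℂ} (hs : V < s.im) (h : F s ≠ 0) :
    mult F s = 0 := by
  by_contra hc
  exact h ((mult_pos_iff hF hs).1 (Nat.pos_of_ne_zero hc))

lemma zset_mul (F G : ℂ → ℂ) (T1 T2 : ℝ) :
    zset (fun s => F s * G s) T1 T2 = zset F T1 T2 ∪ zset G T1 T2 := by
  ext s
  simp only [zset, Set.mem_ofPred_eq, Set.mem_union, mul_eq_zero]
  tauto

lemma sum_mul {R : Type} [CommSemiring R] {F G : ℂ → ℂ} {V : ℝ} (hF : Reg F V) (hG : Reg G V)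
    {V1 V2 : ℝ} (hV : V ≤ V1) (hfF : (zset F V1 V2).Finite) (hfG : (zset G V1 V2).Finite)
    (φ : ℂ → R) :
    ∑ᶠ s ∈ zset (fun s => F s * G s) V1 V2, (mult (fun s => F s * G s) s : R) * φ s =
      (∑ᶠ s ∈ zset F V1 V2, (mult F s : R) * φ s) + ∑ᶠ s ∈ zset G V1 V2, (mult G s : R) * φ s := by
  classical
  have hU : (zset F V1 V2 ∪ zset G V1 V2).Finite := hfF.union hfG
  have him : ∀ {s : ℂ}, s ∈ zset F V1 V2 ∪ zset G V1 V2 → V < s.im := by
    rintro s (h | h)
    · linarith [h.2.2.1]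
    · linarith [h.2.2.1]
  have hNF : (∑ᶠ s ∈ zset F V1 V2, (mult F s : R) * φ s) =
      ∑ s ∈ hU.toFinset, (mult F s : R) * φ s := by
    rw [finsum_mem_eq_finite_toFinset_sum _ hfF]
    refine Finset.sum_subset (fun s hs => ?_) (fun s hs hs' => ?_)
    · simp only [Set.Finite.mem_toFinset] at hs ⊢
      exact Or.inl hs
    · simp only [Set.Finite.mem_toFinset] at hs hs'
      have h0 : F s ≠ 0 := by
        intro h
        apply hs'
        rcases hs with h1 | h1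
        · exact h1
        · exact ⟨h1.1, h1.2.1, h1.2.2.1, h1.2.2.2.1, h⟩
      rw [mult_zero hF (him hs) h0]
      simp
  have hNG : (∑ᶠ s ∈ zset G V1 V2, (mult G s : R) * φ s) =
      ∑ s ∈ hU.toFinset, (mult G s : R) * φ s := by
    rw [finsum_mem_eq_finite_toFinset_sum _ hfG]
    refine Finset.sum_subset (fun s hs => ?_) (fun s hs hs' => ?_)
    · simp only [Set.Finite.mem_toFinset] at hs ⊢
      exact Or.inr hs
    · simp only [Set.Finite.mem_toFinset] at hs hs'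
      have h0 : G s ≠ 0 := by
        intro h
        apply hs'
        rcases hs with h1 | h1
        · exact ⟨h1.1, h1.2.1, h1.2.2.1, h1.2.2.2.1, h⟩
        · exact h1
      rw [mult_zero hG (him hs) h0]
      simp
  rw [hNF, hNG, ← Finset.sum_add_distrib, zset_mul, finsum_mem_eq_finite_toFinset_sum _ hU]
  refine Finset.sum_congr rfl fun s hs => ?_
  rw [Set.Finite.mem_toFinset] at hs
  rw [mult_mul hF hG (him hs)]
  push_cast
  ring

lemma NN_mul {F G : ℂ → ℂ} {V : ℝ} (hF : Reg F V) (hG : Reg G V)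
    {V1 V2 : ℝ} (hV : V ≤ V1) (hfF : (zset F V1 V2).Finite) (hfG : (zset G V1 V2).Finite) :
    NN (fun s => F s * G s) V1 V2 = NN F V1 V2 + NN G V1 V2 := by
  have h := sum_mul (R := ℕ) hF hG hV hfF hfG (fun _ => 1)
  simp only [Nat.cast_id, mul_one] at h
  exact h

/-- simple critical zeros of `F` which are not zeros of `G` -/
noncomputable def On (F G : ℂ → ℂ) (V1 V2 : ℝ) : ℕ :=
  {s : ℂ | s ∈ zset F V1 V2 ∧ s.re = 1 / 2 ∧ mult F s = 1 ∧ G s ≠ 0}.ncard

/-- common zeros, counted with the smaller of the two multiplicities -/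
noncomputable def Cm (F G : ℂ → ℂ) (V1 V2 : ℝ) : ℕ :=
  ∑ᶠ s ∈ zset F V1 V2 ∩ zset G V1 V2, min (mult F s) (mult G s)

theorem counts {F G : ℂ → ℂ} {V : ℝ} (hF : Reg F V) (hG : Reg G V)
    {V1 V2 : ℝ} (hV : V ≤ V1) (hfF : (zset F V1 V2).Finite) (hfG : (zset G V1 V2).Finite) :
    NN (fun s => F s * G s) V1 V2 = NN F V1 V2 + NN G V1 V2 ∧
    Ns (fun s => F s * G s) V1 V2 ≤ On F G V1 V2 + On G F V1 V2 ∧
    Cm F G V1 V2 + Nd (fun s => F s * G s) V1 V2 ≤ NN F V1 V2 + NN G V1 V2 := by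
  classical
  have him : ∀ {s : ℂ}, s ∈ zset F V1 V2 ∪ zset G V1 V2 → V < s.im := by
    rintro s (h | h)
    · linarith [h.2.2.1]
    · linarith [h.2.2.1]
  have hU : (zset F V1 V2 ∪ zset G V1 V2).Finite := hfF.union hfG
  have hNF : NN F V1 V2 = ∑ s ∈ hU.toFinset, mult F s := by
    unfold NN
    rw [finsum_mem_eq_finite_toFinset_sum _ hfF]
    refine Finset.sum_subset (fun s hs => ?_) (fun s hs hs' => ?_)
    · simp only [Set.Finite.mem_toFinset] at hs ⊢
      exact Or.inl hs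
    · simp only [Set.Finite.mem_toFinset] at hs hs'
      refine mult_zero hF (him hs) fun h => hs' ?_
      rcases hs with h1 | h1
      · exact h1
      · exact ⟨h1.1, h1.2.1, h1.2.2.1, h1.2.2.2.1, h⟩
  have hNG : NN G V1 V2 = ∑ s ∈ hU.toFinset, mult G s := by
    unfold NN
    rw [finsum_mem_eq_finite_toFinset_sum _ hfG]
    refine Finset.sum_subset (fun s hs => ?_) (fun s hs hs' => ?_)
    · simp only [Set.Finite.mem_toFinset] at hs ⊢
      exact Or.inr hs
    · simp only [Set.Finite.mem_toFinset] at hs hs'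
      refine mult_zero hG (him hs) fun h => hs' ?_
      rcases hs with h1 | h1
      · exact ⟨h1.1, h1.2.1, h1.2.2.1, h1.2.2.2.1, h⟩
      · exact h1
  refine ⟨NN_mul hF hG hV hfF hfG, ?_, ?_⟩
  · unfold Ns On
    have hsub : {s : ℂ | s ∈ zset (fun s => F s * G s) V1 V2 ∧ s.re = 1 / 2 ∧
        mult (fun s => F s * G s) s = 1} ⊆
        {s : ℂ | s ∈ zset F V1 V2 ∧ s.re = 1 / 2 ∧ mult F s = 1 ∧ G s ≠ 0} ∪
        {s : ℂ | s ∈ zset G V1 V2 ∧ s.re = 1 / 2 ∧ mult G s = 1 ∧ F s ≠ 0} := by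
      rintro s ⟨h1, h2, h3⟩
      rw [zset_mul] at h1
      have i := him h1
      rw [mult_mul hF hG i] at h3
      rcases h1 with h1 | h1
      · have hp := (mult_pos_iff hF i).2 h1.2.2.2.2
        left
        refine ⟨h1, h2, by omega, fun h0 => ?_⟩
        have := (mult_pos_iff hG i).2 h0
        omega
      · have hp := (mult_pos_iff hG i).2 h1.2.2.2.2
        right
        refine ⟨h1, h2, by omega, fun h0 => ?_⟩
        have := (mult_pos_iff hF i).2 h0
        omega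
    refine (Set.ncard_le_ncard hsub ?_).trans (Set.ncard_union_le _ _)
    exact (hfF.subset fun s hs => hs.1).union (hfG.subset fun s hs => hs.1)
  · have hI : (zset F V1 V2 ∩ zset G V1 V2).Finite := hfF.subset Set.inter_subset_left
    have hC : Cm F G V1 V2 = ∑ s ∈ hU.toFinset,
        (if s ∈ zset F V1 V2 ∩ zset G V1 V2 then min (mult F s) (mult G s) else 0) := by
      unfold Cm
      rw [finsum_mem_eq_finite_toFinset_sum _ hI, ← Finset.sum_filter]
      refine Finset.sum_congr ?_ fun _ _ => rfl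
      ext s
      simp only [Set.Finite.mem_toFinset, Finset.mem_filter]
      constructor
      · intro h
        exact ⟨Or.inl h.1, h⟩
      · intro h
        exact h.2
    have hD : Nd (fun s => F s * G s) V1 V2 = ∑ s ∈ hU.toFinset, 1 := by
      unfold Nd
      rw [zset_mul, Set.ncard_eq_toFinset_card _ hU, Finset.card_eq_sum_ones]
    rw [hC, hD, hNF, hNG, ← Finset.sum_add_distrib, ← Finset.sum_add_distrib]
    refine Finset.sum_le_sum fun s hs => ?_
    rw [Set.Finite.mem_toFinset] at hs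
    have i := him hs
    split_ifs with h
    · have h1 := (mult_pos_iff hF i).2 h.1.2.2.2.2
      have h2 := (mult_pos_iff hG i).2 h.2.2.2.2.2
      rcases le_total (mult F s) (mult G s) with h3 | h3
      · rw [min_eq_left h3]; omega
      · rw [min_eq_right h3]; omega
    · rcases hs with h1 | h1
      · have := (mult_pos_iff hF i).2 h1.2.2.2.2
        omega
      · have := (mult_pos_iff hG i).2 h1.2.2.2.2
        omega

lemma zset_sub {F : ℂ → ℂ} {V1 V2 W1 W2 : ℝ} (h1 : V1 ≤ W1) (h2 : W2 ≤ V2) :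
    zset F W1 W2 ⊆ zset F V1 V2 := fun _ hs =>
  ⟨hs.1, hs.2.1, h1.trans_lt hs.2.2.1, hs.2.2.2.1.trans h2, hs.2.2.2.2⟩

/-- the product of two systems -/
theorem zsys_mul {F G : ℂ → ℂ} {H κ ℓ1 ℓ2 L C1 C2 ρ1 ρ2 ρ : ℝ} {P1 P2 : ℝ → ℝ → ℂ}
    (hκ : 0 ≤ κ) (hH : 0 ≤ H) (hF : ZSys F H κ ℓ1 L C1 ρ1 P1) (hG : ZSys G H κ ℓ2 L C2 ρ2 P2)
    (hC1 : 0 ≤ C1) (hC2 : 0 ≤ C2) (hρ1 : ρ ≤ ρ1) (hρ2 : ρ ≤ ρ2)
    (rF : Reg F (H - 3 * κ)) (rG : Reg G (H - 3 * κ)) (hL : ℓ1 + ℓ2 ≤ L) :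
    ZSys (fun s => F s * G s) H κ (ℓ1 + ℓ2) L (C1 + C2) ρ (fun u m => P1 u m + P2 u m) := by
  obtain ⟨V1, hV1⟩ : ∃ V1, V1 = H - 3 * κ := ⟨_, rfl⟩
  obtain ⟨V2, hV2⟩ : ∃ V2, V2 = 2 * H + 3 * κ := ⟨_, rfl⟩
  have f1 := hF.fin
  have f2 := hG.fin
  have hedge1 : H + κ ≤ 2 * H + 3 * κ := by linarith
  have hedge2 : H - 3 * κ ≤ 2 * H - κ := by linarith
  refine ⟨?_, ?_, ?_, ?_, ?_, ?_, ?_, ?_, ?_, ?_, ?_, ?_, hL⟩
  · rw [zset_mul]; exact f1.union f2
  · intro s hs
    rw [zset_mul] at hs ⊢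
    rcases hs with hs | hs
    · exact Or.inl (hF.refl s hs)
    · exact Or.inr (hG.refl s hs)
  · intro s hs
    rw [zset_mul] at hs
    have key : ∀ {A : ℂ → ℂ} {ℓ C ρ' : ℝ} {P : ℝ → ℝ → ℂ}, ZSys A H κ ℓ L C ρ' P →
        Reg A (H - 3 * κ) → ∀ {s : ℂ}, 0 < s.re → s.re < 1 → H - 3 * κ < s.im →
        s.im ≤ 2 * H + 3 * κ → mult A (1 - conj s) = mult A s := by
      intro A ℓ C ρ' P hA rA s s1 s2 s3 s4
      have hi : H - 3 * κ < (1 - conj s).im := by
        simp only [sub_im, one_im, conj_im]; linarith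
      by_cases h0 : A s = 0
      · exact hA.mrefl s ⟨s1, s2, s3, s4, h0⟩
      · rw [mult_zero rA s3 h0]
        refine mult_zero rA hi fun h => h0 ?_
        have hm : 1 - conj s ∈ zset A (H - 3 * κ) (2 * H + 3 * κ) := by
          refine ⟨?_, ?_, hi, ?_, h⟩
          · simp only [sub_re, one_re, conj_re]; linarith
          · simp only [sub_re, one_re, conj_re]; linarith
          · simp only [sub_im, one_im, conj_im]; linarith
        have h2 := hA.refl _ hm
        have e : 1 - conj (1 - conj s) = s := by simp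
        rw [e] at h2
        exact h2.2.2.2.2
    have hb : 0 < s.re ∧ s.re < 1 ∧ H - 3 * κ < s.im ∧ s.im ≤ 2 * H + 3 * κ := by
      rcases hs with hs | hs
      · exact ⟨hs.1, hs.2.1, hs.2.2.1, hs.2.2.2.1⟩
      · exact ⟨hs.1, hs.2.1, hs.2.2.1, hs.2.2.2.1⟩
    obtain ⟨s1, s2, s3, s4⟩ := hb
    have hi : H - 3 * κ < (1 - conj s).im := by
      simp only [sub_im, one_im, conj_im]; linarith
    rw [mult_mul rF rG hi, mult_mul rF rG s3, key hF rF s1 s2 s3 s4, key hG rG s1 s2 s3 s4]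
  · intro s hs
    rw [zset_mul] at hs
    rcases hs with hs | hs
    · rw [mult_mul rF rG hs.2.2.1]
      have := hF.pos s hs
      omega
    · rw [mult_mul rF rG hs.2.2.1]
      have := hG.pos s hs
      omega
  · rw [NN_mul rF rG le_rfl f1 f2]
    push_cast
    have h1 := hF.cnt
    have h2 := hG.cnt
    linarith
  · rw [NN_mul rF rG le_rfl (f1.subset (zset_sub le_rfl hedge1))
      (f2.subset (zset_sub le_rfl hedge1))]
    push_cast
    have h1 := hF.edge1
    have h2 := hG.edge1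
    linarith
  · rw [NN_mul rF rG hedge2 (f1.subset (zset_sub hedge2 le_rfl))
      (f2.subset (zset_sub hedge2 le_rfl))]
    push_cast
    have h1 := hF.edge2
    have h2 := hG.edge2
    linarith
  · intro u m hu hm1 hm2
    have e : A1 (fun s => F s * G s) (H - 3 * κ) (2 * H + 3 * κ) u m =
        A1 F (H - 3 * κ) (2 * H + 3 * κ) u m + A1 G (H - 3 * κ) (2 * H + 3 * κ) u m := by
      unfold A1
      exact sum_mul rF rG le_rfl f1 f2 _
    have h1 := hF.form u m hu hm1 hm2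
    have h2 := hG.form u m hu hm1 hm2
    rw [e]
    have e2 : A1 F (H - 3 * κ) (2 * H + 3 * κ) u m + A1 G (H - 3 * κ) (2 * H + 3 * κ) u m -
        (1 / (2 * Real.sqrt Real.pi) : ℝ) * (((ℓ1 + ℓ2 : ℝ) : ℂ) * cexp (I * m * u) *
          Real.exp (-u ^ 2 / 4) - (P1 u m + P2 u m)) =
        (A1 F (H - 3 * κ) (2 * H + 3 * κ) u m - (1 / (2 * Real.sqrt Real.pi) : ℝ) *
          ((ℓ1 : ℂ) * cexp (I * m * u) * Real.exp (-u ^ 2 / 4) - P1 u m)) +
        (A1 G (H - 3 * κ) (2 * H + 3 * κ) u m - (1 / (2 * Real.sqrt Real.pi) : ℝ) *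
          ((ℓ2 : ℂ) * cexp (I * m * u) * Real.exp (-u ^ 2 / 4) - P2 u m)) := by
      push_cast; ring
    rw [e2]
    refine (norm_add_le _ _).trans ((add_le_add h1 h2).trans ?_)
    have x1 : Real.exp (-(ρ1 * u)) ≤ Real.exp (-(ρ * u)) :=
      Real.exp_le_exp.2 (neg_le_neg (mul_le_mul_of_nonneg_right hρ1 hu))
    have x2 : Real.exp (-(ρ2 * u)) ≤ Real.exp (-(ρ * u)) :=
      Real.exp_le_exp.2 (neg_le_neg (mul_le_mul_of_nonneg_right hρ2 hu))
    have y1 := mul_le_mul_of_nonneg_left x1 hC1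
    have y2 := mul_le_mul_of_nonneg_left x2 hC2
    calc _ = C1 * Real.exp (-(ρ1 * u)) + C2 * Real.exp (-(ρ2 * u)) +
          (C1 + C2) * (L ^ 2 * Real.exp (u - κ ^ 2 / 2)) := by ring
      _ ≤ C1 * Real.exp (-(ρ * u)) + C2 * Real.exp (-(ρ * u)) +
          (C1 + C2) * (L ^ 2 * Real.exp (u - κ ^ 2 / 2)) := by linarith
      _ = _ := by ring
  · exact fun u => (hF.Pc u).add (hG.Pc u)
  · intro u
    obtain ⟨B1, hB1⟩ := hF.Pb u
    obtain ⟨B2, hB2⟩ := hG.Pb u
    exact ⟨B1 + B2, fun m => (norm_add_le _ _).trans (add_le_add (hB1 m) (hB2 m))⟩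
  · exact fun m => (norm_add_le _ _).trans (add_le_add (hF.P0 m) (hG.P0 m))
  · exact add_nonneg hF.hl0 hG.hl0

end Pool.Agent.V8H24.RT
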