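import Pool.Agent.V8H24.RT.Mul
import Pool.Agent.V8H24.ZS.Core
import Pool.Agent.N880.HP.TwC
import Pool.Agent.N7.MainC

/-! # Preparations: regularity, main term -/

set_option autoImplicit false
set_option maxHeartbeats 4000000

open Complex Filter Topology Set MeasureTheory
open scoped BigOperators ComplexConjugate

namespace Pool.Agent.V8H24.RT

open H370 (zset mult NN Nd Ns)
open H385 (GoodU Rw fa_Rw_cont fa_Rw_le Rw_nonneg)
open W388 (GoodE)
open Pool.Agent.V8H24.ZS (ZSys dil dm MainW dm_im dm_re mult_dil)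
open Pool.Agent.V8H24.LI (LT good_LT goodU_mono tw)
open Pool.Agent.N7.MainC (inner inner_continuous inner_nonneg inner_le main_c)

/-- a constant -/
theorem vm_sum : Summable (fun n : ℕ => ArithmeticFunction.vonMangoldt n *
    (n : ℝ) ^ (-(3 / 2) : ℝ)) := by
  have h := ArithmeticFunction.LSeriesSummable_vonMangoldt (s := ((3 / 2 : ℝ) : ℂ)) (by
    rw [Complex.ofReal_re]; norm_num)
  have h2 := h.norm
  refine h2.congr fun n => ?_
  rcases Nat.eq_zero_or_pos n with hn | hn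
  · subst hn; simp
  · rw [LSeries.term_of_ne_zero hn.ne', norm_div, Complex.norm_natCast_cpow_of_pos hn,
      Complex.norm_real, Real.norm_of_nonneg ArithmeticFunction.vonMangoldt_nonneg,
      Complex.ofReal_re, Real.rpow_neg (Nat.cast_nonneg n), div_eq_mul_inv]

theorem goodE_of_U {A Q : ℝ} {F : ℂ → ℂ} {a : ℕ → ℂ} (hA : 1 ≤ A) (hQ : 1 ≤ Q)
    (h : GoodU A Q F a) : GoodE 1 (A + ∑' n : ℕ, ArithmeticFunction.vonMangoldt n *
      (n : ℝ) ^ (-(3 / 2) : ℝ)) Q F a := by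
  obtain ⟨D, hD⟩ : ∃ D, D = ∑' n : ℕ, ArithmeticFunction.vonMangoldt n *
      (n : ℝ) ^ (-(3 / 2) : ℝ) := ⟨_, rfl⟩
  have hD0 : 0 ≤ D := hD ▸ tsum_nonneg fun n =>
    mul_nonneg ArithmeticFunction.vonMangoldt_nonneg (by positivity)
  rw [← hD]
  have h' := goodU_mono hA (show A ≤ A + D by linarith) hQ h
  have hle : ∀ n : ℕ, ‖a n‖ * (n : ℝ) ^ (-(3 / 2) : ℝ) ≤
      ArithmeticFunction.vonMangoldt n * (n : ℝ) ^ (-(3 / 2) : ℝ) := fun n =>
    mul_le_mul_of_nonneg_right (h.ha n) (by positivity)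
  have hs : Summable (fun n : ℕ => ‖a n‖ * (n : ℝ) ^ (-(3 / 2) : ℝ)) :=
    Summable.of_nonneg_of_le (fun n => by positivity) hle vm_sum
  refine ⟨h'.an, h'.growth, h'.lower, h'.nzr, h'.nzl, h'.symm, ?_, hs, ?_, h'.ld, ?_⟩
  · intro n hn
    have h1 := h.ha n
    have h2 : ArithmeticFunction.vonMangoldt n = 0 := by
      rcases (show n = 0 ∨ n = 1 by omega) with rfl | rfl
      · exact ArithmeticFunction.map_zero
      · exact ArithmeticFunction.vonMangoldt_apply_one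
    rw [h2] at h1
    exact norm_le_zero_iff.1 h1
  · have : ∑' n : ℕ, ‖a n‖ * (n : ℝ) ^ (-(3 / 2) : ℝ) ≤ D := by
      rw [hD]
      exact Summable.tsum_le_tsum hle hs vm_sum
    linarith
  · intro s h1 h2 h3 h4
    have := h'.left s h1 h2 h3 h4
    rw [one_mul]
    exact this

/-- regularity of dilated functions -/
lemma reg_dil {A Q : ℝ} {F : ℂ → ℂ} {a : ℕ → ℂ} {d : ℝ} (hA : 1 ≤ A) (h : GoodE d A Q F a)
    {g : ℝ} (hg : 0 < g) (α V : ℝ) (hV : 0 ≤ V + α) : Reg (dil g α F) V := by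
  have hpos : ∀ s : ℂ, V < s.im → 0 < (dm g α s).im := by
    intro s hs
    rw [dm_im]
    exact mul_pos hg (by linarith)
  have han : ∀ s : ℂ, AnalyticAt ℂ (dm g α) s := by
    intro s
    unfold dm; fun_prop
  have hd : ∀ s : ℂ, deriv (dm g α) s ≠ 0 := by
    intro s
    have : HasDerivAt (dm g α) (g : ℂ) s := by
      unfold dm
      have h2 : HasDerivAt (fun s : ℂ => s - 1 / 2 + I * α) 1 s := by
        simpa using ((hasDerivAt_id s).sub_const (1 / 2 : ℂ)).add_const (I * (α : ℂ))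
      simpa using (h2.const_mul (g : ℂ)).const_add (1 / 2 : ℂ)
    rw [this.deriv]
    exact_mod_cast hg.ne'
  refine ⟨fun s hs => ?_, fun s hs => ?_⟩
  · exact (h.an _ (hpos s hs)).comp_of_eq (g := F) (f := dm g α) (han s) rfl
  · have h2 : dil g α F = F ∘ dm g α := rfl
    rw [h2, analyticOrderAt_comp_of_deriv_ne_zero (f := F) (han s) (hd s)]
    have hU : IsPreconnected {s : ℂ | 0 < s.im} := (convex_halfSpace_im_gt 0).isPreconnected
    have h3 : F ⟨2, 1⟩ ≠ 0 := by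
      have := h.lower 1 le_rfl
      exact norm_pos_iff.1 (lt_of_lt_of_le (by positivity) this)
    exact H370.Loc.order_ne_top (f := F) (K := {s : ℂ | 0 < s.im}) hU (fun s hs => h.an s hs)
      (c := ⟨2, 1⟩) (by simp only [Set.mem_ofPred_eq]; norm_num) h3 (hpos s hs)

/-- the main term -/
theorem mainW_two {g : ℝ} (hg : 1 ≤ g) (γ : ℝ) (h0 : 0 < γ) (hπ : γ < Real.pi) :
    ∃ D1 : ℝ, 0 < D1 ∧ MainW (fun u => inner 1 u + inner g u) 2 γ D1 := by
  have hg0 : 0 < g := by linarith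
  obtain ⟨Ca, hCa, ha⟩ := inner_le 1 le_rfl
  obtain ⟨Cb, hCb, hb⟩ := inner_le g hg
  have hRc := fa_Rw_cont γ h0 hπ
  refine ⟨Ca + Cb, by positivity, ?_, ?_, ?_, ?_⟩
  · exact (inner_continuous one_pos).add (inner_continuous hg0)
  · exact fun u => add_nonneg (inner_nonneg _ _) (inner_nonneg _ _)
  · intro u hu
    have := ha u hu
    have := hb u hu
    linarith
  · intro s hs
    obtain ⟨L1, hL1, h1⟩ := main_c 1 le_rfl γ h0 hπ (s / 2) (by positivity)
    obtain ⟨L2, hL2, h2⟩ := main_c g hg γ h0 hπ (s / 2) (by positivity)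
    refine ⟨max L1 L2, lt_max_of_lt_left hL1, ?_⟩
    intro Λ A B T hΛ hA hB hT
    have hΛ0 : 0 < Λ := lt_of_lt_of_le (lt_max_of_lt_left hL1) hΛ
    have k1 := h1 Λ ((le_max_left _ _).trans hΛ)
    have k2 := h2 Λ ((le_max_right _ _).trans hΛ)
    have hRi : Continuous (fun u : ℝ => Rw γ (u / Λ)) := hRc.comp (continuous_id.div_const Λ)
    have c1 : Continuous (fun u : ℝ => Rw γ (u / Λ) * inner 1 u) :=
      hRi.mul (inner_continuous one_pos)
    have c2 : Continuous (fun u : ℝ => Rw γ (u / Λ) * inner g u) :=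
      hRi.mul (inner_continuous hg0)
    have e1 : ∫ u in (0 : ℝ)..Λ, Rw γ (u / Λ) * (A * (inner 1 u + inner g u) + B * T) =
        A * ((∫ u in (0 : ℝ)..Λ, Rw γ (u / Λ) * inner 1 u) +
          ∫ u in (0 : ℝ)..Λ, Rw γ (u / Λ) * inner g u) + B * T * ∫ u in (0 : ℝ)..Λ, Rw γ (u / Λ) := by
      rw [← intervalIntegral.integral_add (c1.intervalIntegrable _ _) (c2.intervalIntegrable _ _),
        ← intervalIntegral.integral_const_mul, ← intervalIntegral.integral_const_mul,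
        ← intervalIntegral.integral_add]
      · congr 1
        funext u
        ring
      · exact (continuous_const.mul (c1.add c2)).intervalIntegrable _ _
      · exact (continuous_const.mul hRi).intervalIntegrable _ _
    rw [e1]
    have k3 : ∫ u in (0 : ℝ)..Λ, Rw γ (u / Λ) ≤ Rw γ 0 * Λ := by
      have : ∫ u in (0 : ℝ)..Λ, Rw γ (u / Λ) ≤ ∫ _u in (0 : ℝ)..Λ, Rw γ 0 := by
        apply intervalIntegral.integral_mono_on hΛ0.le (hRi.intervalIntegrable _ _)
          (continuous_const.intervalIntegrable _ _)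
        intro u hu
        exact fa_Rw_le γ h0 hπ (div_nonneg hu.1 hΛ0.le)
      refine this.trans (le_of_eq ?_)
      rw [intervalIntegral.integral_const, smul_eq_mul]; ring
    have k1' : ∫ u in (0 : ℝ)..Λ, Rw γ (u / Λ) * inner 1 u ≤
        Real.sqrt Real.pi * Λ ^ 2 * ((∫ α in (0 : ℝ)..1, α * Rw γ α) + s / 2) := k1
    have k2' : ∫ u in (0 : ℝ)..Λ, Rw γ (u / Λ) * inner g u ≤
        Real.sqrt Real.pi * Λ ^ 2 * ((∫ α in (0 : ℝ)..1, α * Rw γ α) + s / 2) := k2
    have q1 := mul_le_mul_of_nonneg_left (add_le_add k1' k2') hA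
    have q2 := mul_le_mul_of_nonneg_left k3 (show 0 ≤ B * T by positivity)
    refine (add_le_add q1 q2).trans (le_of_eq ?_)
    ring

/-- the prime side of a dilated function, cut off -/
theorem PG_two {g : ℝ} (hg : 1 ≤ g) {A1 A2 : ℝ} {a b : ℕ → ℂ} (ha : W388.CoefE A1 a)
    (hb : W388.CoefE A2 b) (T u t : ℝ) :
    Pool.Agent.V8H24.ZS.PG (fun u m => Pool.Agent.V8H24.ZS.PQ 1 a u m +
      Pool.Agent.V8H24.ZS.PQ g b u m) T u t =
    Pool.Agent.V8H24.ZS.Pq 1 a T u t + Pool.Agent.V8H24.ZS.Pq g b T u t := by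
  rw [← Pool.Agent.V8H24.ZS.PG_PQ le_rfl ha, ← Pool.Agent.V8H24.ZS.PG_PQ hg hb]
  exact Pool.Agent.V8H24.ZS.PG_add _ _ (Pool.Agent.V8H24.ZS.PQ_cont le_rfl ha u)
    (Pool.Agent.V8H24.ZS.PQ_cont hg hb u) t

end Pool.Agent.V8H24.RT
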